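import Pool.Agent.Work.MP_3b4bb3_an.Chi

set_option autoImplicit false

open MeasureTheory Filter Topology Complex Metric

namespace Pool.Agent.Work.MP_3b4bb3_an

lemma circlePoint_coe (θ : ℝ) : ((circlePoint θ : 𝕋) : ℂ) = exp (θ * I) := rfl

lemma circlePoint_measurable : Measurable circlePoint := by
  apply Measurable.subtype_mk
  exact (by fun_prop : Continuous fun θ : ℝ => exp (θ * I)).measurable

lemma circlePoint_fiber_countable (ζ : 𝕋) : (circlePoint ⁻¹' {ζ}).Countable := by
  rcases (circlePoint ⁻¹' {ζ}).eq_empty_or_nonempty with h | ⟨θ₀, hθ₀⟩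
  · rw [h]; exact Set.countable_empty
  apply (Set.countable_range (fun n : ℤ => θ₀ + n * (2 * Real.pi))).mono
  intro θ hθ
  have h1 : circlePoint θ = circlePoint θ₀ := by
    rw [Set.mem_preimage, Set.mem_singleton_iff] at hθ hθ₀
    rw [hθ, hθ₀]
  have h2 : exp (θ * I) = exp (θ₀ * I) := congrArg Subtype.val h1
  obtain ⟨n, hn⟩ := Complex.exp_eq_exp_iff_exists_int.1 h2
  refine ⟨n, ?_⟩
  have h3 : ((θ : ℂ) - (θ₀ + n * (2 * Real.pi))) * I = 0 := by linear_combination hn
  rcases mul_eq_zero.1 h3 with h4 | h4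
  · have h5 : (θ : ℂ) = ((θ₀ + n * (2 * Real.pi) : ℝ) : ℂ) := by
      push_cast
      linear_combination h4
    exact (Complex.ofReal_injective h5).symm
  · exact absurd h4 I_ne_zero

instance : NullSingletonClass arcMeasure := by
  constructor
  intro ζ
  rw [arcMeasure, Measure.map_apply circlePoint_measurable (measurableSet_singleton ζ)]
  exact (circlePoint_fiber_countable ζ).measure_zero _

instance : IsFiniteMeasure arcMeasure := by
  unfold arcMeasure
  infer_instance

/-- imaginary part of Cayley transform, for points of the circle. -/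
noncomputable def yy (ζ : 𝕋) : ℝ := (cay ζ).im

lemma cay_circle (ζ : 𝕋) : cay ζ = (yy ζ) * I := by
  have h1 : (cay ζ).re = 0 := by
    have h2 : ((ζ : ℂ)).re * (ζ : ℂ).re + (ζ : ℂ).im * (ζ : ℂ).im = 1 := by
      rw [← Complex.normSq_apply, Complex.normSq_eq_norm_sq]
      have : ‖(ζ : ℂ)‖ = 1 := by simp
      rw [this]; norm_num
    rw [cay, Complex.div_re, ← add_div]
    rw [div_eq_zero_iff]
    left
    simp
    nlinarith
  apply Complex.ext
  · simp [h1]
  · simp [yy]

lemma yy_inj {ζ ξ : 𝕋} (h : (1 : ℂ) + ζ ≠ 0) (h' : (1 : ℂ) + ξ ≠ 0) (he : yy ζ = yy ξ) :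
    ζ = ξ := by
  have h1 : cay ζ = cay ξ := by rw [cay_circle, cay_circle, he]
  rw [cay, cay, div_eq_div_iff h h'] at h1
  apply Subtype.ext
  linear_combination (-1 / 2 : ℂ) * h1

/-- the exceptional values -/
def excVal : Set ℝ := insert 0 (Set.range tt)

/-- the exceptional set -/
def excSet : Set 𝕋 :=
  {ζ | (1 : ℂ) + ζ = 0} ∪ {ζ | (1 : ℂ) + ζ ≠ 0 ∧ (yy ζ ∈ excVal ∨ - yy ζ ∈ excVal)}

lemma excSet_countable : excSet.Countable := by
  apply Set.Countable.union
  · apply Set.Subsingleton.countable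
    intro a ha b hb
    apply Subtype.ext
    have ha' : (1 : ℂ) + a = 0 := ha
    have hb' : (1 : ℂ) + b = 0 := hb
    linear_combination ha' - hb'
  · have hc0 : excVal.Countable := (Set.countable_range tt).insert 0
    have hc : (excVal ∪ (Neg.neg '' excVal)).Countable := hc0.union (hc0.image _)
    apply Set.countable_of_injective_of_countable_image (f := yy)
      (fun a ha b hb hab => yy_inj ha.1 hb.1 hab)
    apply hc.mono
    rintro _ ⟨ζ, ⟨_, h | h⟩, rfl⟩
    · exact Or.inl h
    · exact Or.inr ⟨_, h, neg_neg _⟩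

lemma excVal_compact : IsCompact excVal := tt_tendsto.isCompact_insert_range

lemma exists_dist {y : ℝ} (hy : y ∉ excVal) : ∃ d > 0, ∀ n, d ≤ |y - tt n| := by
  refine ⟨infDist y excVal, ?_, ?_⟩
  · exact (excVal_compact.isClosed.notMem_iff_infDist_pos ⟨0, Set.mem_insert _ _⟩).1 hy
  · intro n
    exact infDist_le_dist_of_mem (Set.mem_insert_of_mem _ ⟨n, rfl⟩)

lemma cay_continuousAt {z : ℂ} (h : 1 + z ≠ 0) : ContinuousAt cay z := by
  unfold cay
  fun_prop (disch := assumption)

lemma om_continuousAt {t : ℝ} {z : ℂ} (h : 1 + z ≠ 0) (h1 : cay z + t * I ∈ slitPlane)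
    (h2 : cay z - t * I ∈ slitPlane) : ContinuousAt (om t) z := by
  have hc := cay_continuousAt h
  unfold om
  exact ((hc.add_const _).clog h1 |>.sub ((hc.sub_const _).clog h2)).div_const _

lemma radial_tendsto (ζ : 𝕋) :
    Tendsto (fun r : ℝ => (r : ℂ) * (ζ : ℂ)) (𝓝[<] 1) (𝓝 (ζ : ℂ)) := by
  have h : Continuous (fun r : ℝ => (r : ℂ) * (ζ : ℂ)) := by fun_prop
  have := h.tendsto 1
  simp only [ofReal_one, one_mul] at this
  exact this.mono_left nhdsWithin_le_nhds

lemma HH_radial {ζ : 𝕋} (hζ : ζ ∉ excSet) :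
    Tendsto (fun r : ℝ => HH ((r : ℂ) * (ζ : ℂ))) (𝓝[<] 1) (𝓝 (HH ζ)) := by
  have h1 : (1 : ℂ) + ζ ≠ 0 := fun h => hζ (Or.inl h)
  have h2 : yy ζ ∉ excVal := fun h => hζ (Or.inr ⟨h1, Or.inl h⟩)
  have h3 : -yy ζ ∉ excVal := fun h => hζ (Or.inr ⟨h1, Or.inr h⟩)
  obtain ⟨d1, hd1, hd1'⟩ := exists_dist h2
  obtain ⟨d2, hd2, hd2'⟩ := exists_dist h3
  set d := min d1 d2 with hd
  have hd0 : 0 < d := lt_min hd1 hd2
  set R := ‖cay ζ‖ + d / 2 + 1 with hR
  have e1 : ∀ n, d ≤ ‖cay ζ - tt n * I‖ := by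
    intro n
    have : cay ζ - tt n * I = ((yy ζ - tt n : ℝ) : ℂ) * I := by
      rw [cay_circle]; push_cast; ring
    rw [this, norm_mul, norm_I, mul_one, Complex.norm_real]
    exact (min_le_left _ _).trans (hd1' n)
  have e2 : ∀ n, d ≤ ‖cay ζ + tt n * I‖ := by
    intro n
    have : cay ζ + tt n * I = ((-(-yy ζ - tt n) : ℝ) : ℂ) * I := by
      rw [cay_circle]; push_cast; ring
    rw [this, norm_mul, norm_I, mul_one, Complex.norm_real, norm_neg]
    exact (min_le_right _ _).trans (hd2' n)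
  have hc : Tendsto (fun r : ℝ => cay ((r : ℂ) * (ζ : ℂ))) (𝓝[<] 1) (𝓝 (cay ζ)) :=
    (cay_continuousAt h1).tendsto.comp (radial_tendsto ζ)
  have hev : ∀ᶠ r : ℝ in 𝓝[<] 1, dist (cay ((r : ℂ) * (ζ : ℂ))) (cay ζ) < d / 2 :=
    hc.eventually (Metric.ball_mem_nhds _ (by positivity))
  apply tendsto_tsum_of_dominated_convergence
    (bound := fun n => eta n * (1 + (|Real.log (d / 2)| + |Real.log R| + Real.pi)))
    (eta_summable'.mul_right _)
  · intro n
    have hs1 : cay ζ + tt n * I ∈ slitPlane := by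
      right
      have := e2 n
      intro him
      have h5 : cay ζ + tt n * I = 0 := by
        rw [cay_circle] at him ⊢
        have h6 : yy ζ + tt n = 0 := by simpa using him
        have h7 : ((yy ζ + tt n : ℝ) : ℂ) = 0 := by rw [h6]; simp
        push_cast at h7
        linear_combination I * h7
      rw [h5, norm_zero] at this
      linarith
    have hs2 : cay ζ - tt n * I ∈ slitPlane := by
      right
      have := e1 n
      intro him
      have h5 : cay ζ - tt n * I = 0 := by
        rw [cay_circle] at him ⊢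
        have h6 : yy ζ - tt n = 0 := by simpa using him
        have h7 : ((yy ζ - tt n : ℝ) : ℂ) = 0 := by rw [h6]; simp
        push_cast at h7
        linear_combination I * h7
      rw [h5, norm_zero] at this
      linarith
    have hom := (om_continuousAt h1 hs1 hs2).tendsto.comp (radial_tendsto ζ)
    exact (hom.const_sub 1).const_mul _
  · filter_upwards [hev] with r hr n
    have ht := tt_pos n
    have ht2 := tt_le_half n
    rw [dist_eq_norm] at hr
    set p := cay ((r : ℂ) * (ζ : ℂ)) with hp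
    have g1 : d / 2 ≤ ‖p + tt n * I‖ := by
      have : cay ζ + tt n * I = (p + tt n * I) - (p - cay ζ) := by ring
      have h4 := e2 n
      rw [this] at h4
      have := norm_sub_le (p + tt n * I) (p - cay ζ)
      linarith
    have g2 : d / 2 ≤ ‖p - tt n * I‖ := by
      have : cay ζ - tt n * I = (p - tt n * I) - (p - cay ζ) := by ring
      have h4 := e1 n
      rw [this] at h4
      have := norm_sub_le (p - tt n * I) (p - cay ζ)
      linarith
    have hpn : ‖p‖ ≤ ‖cay ζ‖ + d / 2 := by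
      have : p = cay ζ + (p - cay ζ) := by ring
      rw [this]
      refine (norm_add_le _ _).trans ?_
      linarith
    have g3 : ‖p + tt n * I‖ ≤ R := by
      refine (norm_add_le _ _).trans ?_
      rw [norm_mul, norm_I, Complex.norm_real, Real.norm_eq_abs, abs_of_pos ht]
      linarith
    have g4 : ‖p - tt n * I‖ ≤ R := by
      refine (norm_sub_le _ _).trans ?_
      rw [norm_mul, norm_I, Complex.norm_real, Real.norm_eq_abs, abs_of_pos ht]
      linarith
    rw [hterm, norm_mul, Complex.norm_real, Real.norm_eq_abs, abs_of_pos (eta_pos n)]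
    have := eta_pos n
    gcongr
    refine (norm_sub_le _ _).trans ?_
    rw [norm_one]
    gcongr
    exact om_norm_le (by positivity) g1 g2 g3 g4

lemma chi0_radial {ζ : 𝕋} (hζ : ζ ∉ excSet) :
    Tendsto (fun r : ℝ => chi0 ((r : ℂ) * (ζ : ℂ))) (𝓝[<] 1) (𝓝 (chi0 ζ)) :=
  (radial_tendsto ζ).mul ((HH_radial hζ).neg.cexp)

lemma ae_not_exc : ∀ᵐ ζ ∂arcMeasure, ζ ∉ excSet := excSet_countable.ae_notMem arcMeasure

/-- real part of `om` on the circle -/
lemma om_circle_re {t : ℝ} {ζ : 𝕋} (_h : 0 ≤ t) (h1 : |yy ζ| < t) : (om t ζ).re = 1 := by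
  rw [om_re, cay_circle]
  have a1 : (yy ζ : ℂ) * I + t * I = ((yy ζ + t : ℝ) : ℂ) * I := by push_cast; ring
  have a2 : (yy ζ : ℂ) * I - t * I = ((t - yy ζ : ℝ) : ℂ) * (-I) := by push_cast; ring
  have := abs_lt.1 h1
  rw [a1, a2, Complex.arg_real_mul _ (by linarith), Complex.arg_real_mul _ (by linarith),
    Complex.arg_I, Complex.arg_neg_I]
  field_simp
  ring

lemma om_circle_re' {t : ℝ} {ζ : 𝕋} (h : 0 ≤ t) (h1 : t < |yy ζ|) : (om t ζ).re = 0 := by
  rw [om_re, cay_circle]
  rcases lt_or_ge (yy ζ) 0 with h2 | h2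
  · rw [abs_of_neg h2] at h1
    have a1 : (yy ζ : ℂ) * I + t * I = ((-yy ζ - t : ℝ) : ℂ) * (-I) := by push_cast; ring
    have a2 : (yy ζ : ℂ) * I - t * I = ((t - yy ζ : ℝ) : ℂ) * (-I) := by push_cast; ring
    rw [a1, a2, Complex.arg_real_mul _ (by linarith), Complex.arg_real_mul _ (by linarith)]
    simp
  · rw [abs_of_nonneg h2] at h1
    have a1 : (yy ζ : ℂ) * I + t * I = ((yy ζ + t : ℝ) : ℂ) * I := by push_cast; ring
    have a2 : (yy ζ : ℂ) * I - t * I = ((yy ζ - t : ℝ) : ℂ) * I := by push_cast; ring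
    rw [a1, a2, Complex.arg_real_mul _ (by linarith), Complex.arg_real_mul _ (by linarith)]
    simp

lemma hterm_summable_circle {ζ : 𝕋} (hζ : ζ ∉ excSet) : Summable (fun n => hterm n ζ) := by
  have h1 : (1 : ℂ) + ζ ≠ 0 := fun h => hζ (Or.inl h)
  have h2 : yy ζ ∉ excVal := fun h => hζ (Or.inr ⟨h1, Or.inl h⟩)
  have h3 : -yy ζ ∉ excVal := fun h => hζ (Or.inr ⟨h1, Or.inr h⟩)
  obtain ⟨d1, hd1, hd1'⟩ := exists_dist h2
  obtain ⟨d2, hd2, hd2'⟩ := exists_dist h3
  set d := min d1 d2 with hd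
  have hd0 : 0 < d := lt_min hd1 hd2
  set R := ‖cay ζ‖ + 1 with hR
  apply Summable.of_norm_bounded
    (g := fun n => eta n * (1 + (|Real.log d| + |Real.log R| + Real.pi)))
    (eta_summable'.mul_right _)
  intro n
  have ht := tt_pos n
  have ht2 := tt_le_half n
  have e1 : d ≤ ‖cay ζ - tt n * I‖ := by
    have : cay ζ - tt n * I = ((yy ζ - tt n : ℝ) : ℂ) * I := by
      rw [cay_circle]; push_cast; ring
    rw [this, norm_mul, norm_I, mul_one, Complex.norm_real]
    exact (min_le_left _ _).trans (hd1' n)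
  have e2 : d ≤ ‖cay ζ + tt n * I‖ := by
    have : cay ζ + tt n * I = ((-(-yy ζ - tt n) : ℝ) : ℂ) * I := by
      rw [cay_circle]; push_cast; ring
    rw [this, norm_mul, norm_I, mul_one, Complex.norm_real, norm_neg]
    exact (min_le_right _ _).trans (hd2' n)
  have g3 : ‖cay ζ + tt n * I‖ ≤ R := by
    refine (norm_add_le _ _).trans ?_
    rw [norm_mul, norm_I, Complex.norm_real, Real.norm_eq_abs, abs_of_pos ht]
    linarith
  have g4 : ‖cay ζ - tt n * I‖ ≤ R := by
    refine (norm_sub_le _ _).trans ?_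
    rw [norm_mul, norm_I, Complex.norm_real, Real.norm_eq_abs, abs_of_pos ht]
    linarith
  rw [hterm, norm_mul, Complex.norm_real, Real.norm_eq_abs, abs_of_pos (eta_pos n)]
  have := eta_pos n
  gcongr
  refine (norm_sub_le _ _).trans ?_
  rw [norm_one]
  gcongr
  exact om_norm_le hd0 e2 e1 g3 g4

/-- the value of `Re HH` on the level sets -/
lemma HH_re_level {ζ : 𝕋} (h1 : (1 : ℂ) + ζ ≠ 0) {n : ℕ} (hl : tt (n + 1) < |yy ζ|)
    (hu : |yy ζ| < tt n) : ζ ∉ excSet ∧ eta (n + 1) ≤ (HH ζ).re ∧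
      (HH ζ).re ≤ 2 * eta (n + 1) := by
  have hne : ∀ j, |yy ζ| ≠ tt j := by
    intro j hj
    rcases le_or_gt j n with h | h
    · have := tt_anti h
      linarith
    · have := tt_anti (Nat.succ_le_of_lt h)
      linarith [this]
  have hex : ζ ∉ excSet := by
    rintro (h | ⟨-, h⟩)
    · exact h1 h
    · have hpos : 0 < |yy ζ| := lt_trans (tt_pos _) hl
      have habs : |yy ζ| ∈ excVal := by
        rcases h with h | h
        · rcases le_or_gt 0 (yy ζ) with h2 | h2
          · rwa [abs_of_nonneg h2]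
          · exfalso
            rcases h with h | ⟨j, hj⟩
            · linarith
            · have := tt_pos j; linarith
        · rcases le_or_gt 0 (yy ζ) with h2 | h2
          · exfalso
            rcases h with h | ⟨j, hj⟩
            · rw [abs_of_nonneg h2] at hpos; linarith
            · have := tt_pos j; linarith
          · rwa [abs_of_neg h2]
      rcases habs with h | ⟨j, hj⟩
      · linarith
      · exact hne j hj.symm
  have hs := hterm_summable_circle hex
  have hre : (HH ζ).re = ∑' j, eta (n + 1 + j) := by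
    rw [HH, Complex.re_tsum hs]
    have hs' : Summable (fun j => (hterm j ζ).re) := (Complex.hasSum_re hs.hasSum).summable
    rw [← hs'.sum_add_tsum_nat_add (n + 1)]
    rw [Finset.sum_eq_zero, zero_add]
    · congr 1
      ext j
      rw [hterm_re, om_circle_re' (tt_pos _).le, sub_zero, mul_one, add_comm]
      refine lt_of_le_of_lt (tt_anti ?_) hl
      omega
    · intro j hj
      rw [Finset.mem_range] at hj
      rw [hterm_re, om_circle_re (tt_pos _).le, sub_self, mul_zero]
      refine lt_of_lt_of_le hu (tt_anti ?_)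
      omega
  refine ⟨hex, ?_, ?_⟩
  · rw [hre]
    have := (eta_summable (n + 1)).le_tsum 0 (fun j _ => (eta_pos _).le)
    simpa using this
  · rw [hre]; exact eta_tsum_le (n + 1)

lemma level_bound {ζ : 𝕋} (h1 : (1 : ℂ) + ζ ≠ 0) {n : ℕ} (hl : tt (n + 1) < |yy ζ|)
    (hu : |yy ζ| < tt n) : Real.log |1 - ‖chi0 ζ‖ ^ 2| ≤ -(tt n)⁻¹ := by
  obtain ⟨-, h2, h3⟩ := HH_re_level h1 hl hu
  have he := eta_pos (n + 1)
  have hn : ‖chi0 ζ‖ ^ 2 = Real.exp (-(2 * (HH ζ).re)) := by
    rw [chi0_norm]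
    have : ‖(ζ : ℂ)‖ = 1 := by simp
    rw [this, one_mul, ← Real.exp_nat_mul]
    congr 1
    push_cast
    ring
  have h4 : 1 - ‖chi0 ζ‖ ^ 2 ≤ 4 * eta (n + 1) := by
    rw [hn]
    have := Real.add_one_le_exp (-(2 * (HH ζ).re))
    linarith
  have h5 : 0 < 1 - ‖chi0 ζ‖ ^ 2 := by
    rw [hn]
    have : Real.exp (-(2 * (HH ζ).re)) < 1 := by
      rw [Real.exp_lt_one_iff]
      linarith
    linarith
  rw [abs_of_pos h5]
  calc Real.log (1 - ‖chi0 ζ‖ ^ 2) ≤ Real.log (4 * eta (n + 1)) := Real.log_le_log h5 h4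
    _ ≤ Real.log (Real.exp (-(tt n)⁻¹)) := by
      apply Real.log_le_log (by positivity)
      have : eta (n + 1) = Real.exp (-(tt n)⁻¹) / 8 := rfl
      rw [this]
      have := Real.exp_pos (-(tt n)⁻¹)
      linarith
    _ = -(tt n)⁻¹ := Real.log_exp _

lemma yy_circlePoint (θ : ℝ) : yy (circlePoint θ) = -(Real.sin θ / (1 + Real.cos θ)) := by
  rw [yy, circlePoint_coe, cay, Complex.div_im, Complex.normSq_apply]
  have hc : (exp (θ * I)).re = Real.cos θ := Complex.exp_ofReal_mul_I_re θ
  have hs : (exp (θ * I)).im = Real.sin θ := Complex.exp_ofReal_mul_I_im θ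
  simp only [sub_im, one_im, add_re, one_re, sub_re, add_im, zero_sub, zero_add, hc, hs]
  have h2 : (1 + Real.cos θ) * (1 + Real.cos θ) + Real.sin θ * Real.sin θ
      = 2 * (1 + Real.cos θ) := by
    have := Real.sin_sq_add_cos_sq θ
    nlinarith
  rw [h2]
  by_cases h : 1 + Real.cos θ = 0
  · simp [h]
  · field_simp
    ring

lemma yy_level {n : ℕ} {θ : ℝ} (h1 : 3 * tt (n + 1) < θ) (h2 : θ < tt n) :
    (1 : ℂ) + (circlePoint θ : 𝕋) ≠ 0 ∧ tt (n + 1) < |yy (circlePoint θ)| ∧
      |yy (circlePoint θ)| < tt n := by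
  have ht := tt_pos (n + 1)
  have ht2 := tt_le_half n
  have hθ0 : 0 < θ := by linarith
  have hθ1 : θ ≤ 1 := by linarith
  have hcos : 1 / 2 ≤ Real.cos θ := by
    have := Real.one_sub_sq_div_two_le_cos (x := θ)
    nlinarith
  have hcos1 := Real.cos_le_one θ
  have hsin0 := Real.sin_gt_sub_cube hθ0
  have hsin1 := Real.sin_lt hθ0
  have hsin0' : 3 / 4 * θ < Real.sin θ := by
    have : θ ^ 3 ≤ θ := by
      have := pow_le_of_le_one hθ0.le hθ1 (n := 3) (by norm_num)
      exact this
    nlinarith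
  have habs : |yy (circlePoint θ)| = Real.sin θ / (1 + Real.cos θ) := by
    rw [yy_circlePoint, abs_neg, abs_of_nonneg]
    apply div_nonneg <;> linarith
  refine ⟨?_, ?_, ?_⟩
  · intro h
    have h3 := congrArg Complex.re h
    rw [circlePoint_coe, add_re, Complex.exp_ofReal_mul_I_re] at h3
    simp at h3
    linarith
  · rw [habs, lt_div_iff₀ (by linarith)]
    nlinarith
  · rw [habs, div_lt_iff₀ (by linarith)]
    have := tt_pos n
    nlinarith

lemma not_integrable_log : ¬ Integrable (fun ζ : 𝕋 => Real.log |1 - ‖chi0 ζ‖ ^ 2|) arcMeasure := by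
  intro h
  have h' := h.comp_measurable circlePoint_measurable
  set f : ℝ → ℝ := (fun ζ : 𝕋 => Real.log |1 - ‖chi0 ζ‖ ^ 2|) ∘ circlePoint with hf
  set A : ℕ → Set ℝ := fun n => Set.Ioo (3 * tt (n + 1)) (tt n) with hA
  have hsub : ∀ n, A n ⊆ Set.Ioc 0 (2 * Real.pi) := by
    intro n θ hθ
    have := tt_pos (n + 1)
    have := tt_le_half n
    have := Real.pi_gt_three
    exact ⟨by linarith [hθ.1], by linarith [hθ.2]⟩
  have hint : IntegrableOn f (⋃ n, A n) volume := by
    have h2 : IntegrableOn f (Set.Ioc 0 (2 * Real.pi)) volume := h'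
    exact h2.mono_set (Set.iUnion_subset hsub)
  have hdisj : Pairwise (Function.onFun Disjoint A) := by
    have key : ∀ m n, m < n → Disjoint (A m) (A n) := by
      intro m n hmn
      rw [Set.disjoint_left]
      intro x hx hy
      have h1 : tt n ≤ tt (m + 1) := tt_anti (Nat.succ_le_of_lt hmn)
      have := tt_pos (m + 1)
      have := hx.1
      have := hy.2
      linarith
    intro m n hmn
    rcases lt_or_gt_of_ne hmn with h | h
    · exact key _ _ h
    · exact (key _ _ h).symm
  have hsum := hasSum_integral_iUnion (fun n => measurableSet_Ioo) hdisj hint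
  have htend := hsum.summable.tendsto_atTop_zero
  have hle : ∀ n, ∫ a in A n, f a ≤ -(1 / 4) := by
    intro n
    have htp := tt_pos n
    calc ∫ a in A n, f a ≤ ∫ _ in A n, -(tt n)⁻¹ := by
          apply setIntegral_mono_on (hint.mono_set (Set.subset_iUnion A n))
            (by simp [hA, integrableOn_const_iff]) measurableSet_Ioo
          intro θ hθ
          obtain ⟨e1, e2, e3⟩ := yy_level hθ.1 hθ.2
          exact level_bound e1 e2 e3
      _ = -((tt n)⁻¹ * (tt n - 3 * tt (n + 1))) := by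
          rw [setIntegral_const]
          have h4 := tt_succ n
          have h5 := tt_pos (n + 1)
          simp only [hA, smul_eq_mul]
          rw [measureReal_def, Real.volume_Ioo, ENNReal.toReal_ofReal (by linarith)]
          ring
      _ ≤ -(1 / 4) := by
          have h4 := tt_succ n
          have h5 : tt n / 4 ≤ tt n - 3 * tt (n + 1) := by linarith
          have h6 : (tt n)⁻¹ * (tt n / 4) ≤ (tt n)⁻¹ * (tt n - 3 * tt (n + 1)) := by
            gcongr
          have h7 : (tt n)⁻¹ * (tt n / 4) = 1 / 4 := by field_simp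
          linarith
  have := le_of_tendsto' htend hle
  norm_num at this

end Pool.Agent.Work.MP_3b4bb3_an
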