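import Pool.Agent.Work.MP_3b4bb3_an.Oper

set_option autoImplicit false

open MeasureTheory Filter Topology Complex Metric

namespace Pool.Agent.Work.MP_3b4bb3_an

section good

variable {N : Type*} [NormedAddCommGroup N] [InnerProductSpace ℂ N] [CompleteSpace N]

/-- the hypotheses under which the extension measure is absolutely continuous -/
structure Good (g : ℂ → (N →L[ℂ] N)) : Prop where
  diff : DifferentiableOn ℂ g (ball 0 1)
  zero : g 0 = 0
  lt : ∀ z ∈ ball (0:ℂ) 1, ‖g z‖ < 1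
  weight : ∀ s : ℝ, 0 < s → ∃ (η : ℝ) (w : ℂ → ℂ), 0 < η ∧ η ≤ 1 ∧
    DifferentiableOn ℂ w (ball 0 1) ∧ (∀ z ∈ ball (0:ℂ) 1, 0 ≤ (w z).re) ∧
    (∀ z ∈ ball (0:ℂ) 1, η * (1 - (w z).re) ≤ 1 - ‖g z‖) ∧
    ∀ r : ℝ, 0 ≤ r → r < 1 → Real.circleAverage (fun z => ‖w z‖) 0 r ≤ s * η

lemma avg_dil {F : Type*} [NormedAddCommGroup F] [NormedSpace ℝ F] (f : ℂ → F) (r : ℝ) :
    Real.circleAverage (fun ζ => f ((r : ℂ) * ζ)) 0 1 = Real.circleAverage f 0 r := by
  simp only [Real.circleAverage_def, circleMap, zero_add, ofReal_one, one_mul]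

variable {g : ℂ → (N →L[ℂ] N)}

lemma Good.U_diff (h : Good g) : DifferentiableOn ℂ (fun z => UU (g z)) (ball 0 1) := by
  unfold UU
  apply DifferentiableOn.inverse
  · exact (differentiableOn_const _).sub h.diff
  · intro z hz
    exact UU_unit (h.lt z hz)

lemma re_smul_nonneg {η : ℝ} (hη : 0 < η) {w : ℂ} (hw : 0 ≤ w.re) :
    0 ≤ ((η : ℂ) * w).re := by
  simp only [mul_re, ofReal_re, ofReal_im, zero_mul, sub_zero]
  positivity

lemma Good.K_diff (h : Good g) {η : ℝ} (hη : 0 < η) {w : ℂ → ℂ}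
    (hwd : DifferentiableOn ℂ w (ball 0 1)) (hw : ∀ z ∈ ball (0:ℂ) 1, 0 ≤ (w z).re) :
    DifferentiableOn ℂ (fun z => KK (η * w z) (g z)) (ball 0 1) := by
  unfold KK
  apply DifferentiableOn.inverse
  · apply DifferentiableOn.add
    · exact (differentiableOn_const _).sub h.diff
    · exact (hwd.const_mul (η : ℂ)).smul_const _
  · intro z hz
    exact KK_unit (h.lt z hz) (re_smul_nonneg hη (hw z hz))

lemma diff_inner {A : ℂ → (N →L[ℂ] N)} (hA : DifferentiableOn ℂ A (ball 0 1)) (x : N) :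
    DifferentiableOn ℂ (fun z => (inner ℂ x (A z x) : ℂ)) (ball 0 1) := by
  have h1 : DifferentiableOn ℂ (fun z => A z x) (ball 0 1) := by
    intro z hz
    exact (hA z hz).clm_apply (differentiableWithinAt_const x)
  have h2 : DifferentiableOn ℂ (fun z => (innerSL ℂ x) (A z x)) (ball 0 1) := by
    exact (innerSL ℂ x).differentiable.comp_differentiableOn h1
  exact h2

/-- the `L¹` bound of the small term -/
lemma Good.D_avg (h : Good g) {η s : ℝ} (hη : 0 < η) (hη1 : η ≤ 1) (hs : 0 < s) {w : ℂ → ℂ}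
    (hwd : DifferentiableOn ℂ w (ball 0 1)) (hw : ∀ z ∈ ball (0:ℂ) 1, 0 ≤ (w z).re)
    (hg : ∀ z ∈ ball (0:ℂ) 1, η * (1 - (w z).re) ≤ 1 - ‖g z‖)
    (havg : ∀ r : ℝ, 0 ≤ r → r < 1 → Real.circleAverage (fun z => ‖w z‖) 0 r ≤ s * η)
    (x : N) {r : ℝ} (hr0 : 0 ≤ r) (hr : r < 1) :
    Real.circleAverage (fun z => |(inner ℂ x (DD (η * w z) (g z) x) : ℂ).re|) 0 r
      ≤ 5 * s * ‖x‖ ^ 2 := by
  have hD : DifferentiableOn ℂ (fun z => DD (η * w z) (g z)) (ball 0 1) := by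
    unfold DD
    exact h.U_diff.sub (h.K_diff hη hwd hw)
  have hd := diff_inner hD x
  set d : ℂ → ℂ := fun z => inner ℂ x (DD (η * w z) (g z) x) with hdd
  have c1 : ContinuousOn (fun z => (d z).re) (ball 0 1) :=
    continuous_re.comp_continuousOn hd.continuousOn
  have c2 : ContinuousOn (fun z => ‖w z‖) (ball 0 1) := hwd.continuousOn.norm
  have c3 : ContinuousOn (fun z => (4 / η * ‖x‖ ^ 2) * ‖w z‖) (ball 0 1) :=
    c2.const_smul (4 / η * ‖x‖ ^ 2)
  have h0 : (0:ℂ) ∈ ball (0:ℂ) 1 := by simp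
  have hw0 : ‖w 0‖ ≤ s * η := by
    have h1 : w 0 = Real.circleAverage w 0 r := (avg_eq hwd hr0 hr).symm
    rw [h1]
    refine (?_ : _ ≤ Real.circleAverage (fun z => ‖w z‖) 0 r).trans (havg r hr0 hr)
    rw [Real.circleAverage_def, Real.circleAverage_def, norm_smul, smul_eq_mul]
    have : ‖(2 * Real.pi)⁻¹‖ = (2 * Real.pi)⁻¹ := by
      rw [Real.norm_eq_abs, abs_of_pos (by positivity)]
    rw [this]
    gcongr
    exact intervalIntegral.norm_integral_le_integral_norm (by positivity)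
  calc Real.circleAverage (fun z => |(d z).re|) 0 r
      ≤ Real.circleAverage (fun z => (d z).re + (4 / η * ‖x‖ ^ 2) * ‖w z‖) 0 r := by
        apply Real.circleAverage_mono (cInt c1.abs hr0 hr) (cInt (c1.add c3) hr0 hr)
        intro z hz
        rw [abs_of_nonneg hr0] at hz
        have hz' := sphere_sub hr0 hr hz
        have h2 := inner_DD_ge (h.lt z hz') hη (hw z hz') (hg z hz') x
        have h3 : 4 / η * ‖x‖ ^ 2 * ‖w z‖ = 2 * (2 / η * ‖w z‖ * ‖x‖ ^ 2) := by ring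
        have h4 : 0 ≤ 2 / η * ‖w z‖ * ‖x‖ ^ 2 := by positivity
        simp only [Pi.add_apply]
        rw [h3]
        change |(inner ℂ x (DD (η * w z) (g z) x) : ℂ).re| ≤
          (inner ℂ x (DD (η * w z) (g z) x) : ℂ).re + 2 * (2 / η * ‖w z‖ * ‖x‖ ^ 2)
        rcases abs_cases (inner ℂ x (DD (η * w z) (g z) x) : ℂ).re with ⟨h5, _⟩ | ⟨h5, _⟩
        · rw [h5]; linarith
        · rw [h5]; linarith
    _ = (d 0).re + (4 / η * ‖x‖ ^ 2) * Real.circleAverage (fun z => ‖w z‖) 0 r := by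
        rw [Real.circleAverage_fun_add (cInt c1 hr0 hr) (cInt c3 hr0 hr), avg_re hd hr0 hr]
        congr 1
        have := Real.circleAverage_fun_smul (f := fun z => ‖w z‖) (c := 0) (R := r)
          (a := (4 / η * ‖x‖ ^ 2))
        simpa [smul_eq_mul] using this
    _ ≤ s * ‖x‖ ^ 2 + (4 / η * ‖x‖ ^ 2) * (s * η) := by
        gcongr
        · have h1 : ‖UU (g 0)‖ ≤ 1 := by
            have := UU_norm_le (h.lt 0 h0) (c := 1) one_pos (by rw [h.zero, norm_zero, sub_zero])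
            simpa using this
          have h2 := DD_norm_le (h.lt 0 h0) hη (hw 0 h0) (hg 0 h0)
          have h3 := abs_inner_le (DD (η * w 0) (g 0)) x
          have h4 := le_abs_self (inner ℂ x (DD (η * w 0) (g 0) x) : ℂ).re
          have h5 : ‖DD (η * w 0) (g 0)‖ ≤ s := by
            calc ‖DD (η * w 0) (g 0)‖ ≤ ‖UU (g 0)‖ * ‖w 0‖ := h2
              _ ≤ 1 * (s * η) := by gcongr
              _ ≤ 1 * (s * 1) := by gcongr
              _ = s := by ring
          change (inner ℂ x (DD (η * w 0) (g 0) x) : ℂ).re ≤ s * ‖x‖ ^ 2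
          calc (inner ℂ x (DD (η * w 0) (g 0) x) : ℂ).re ≤ ‖DD (η * w 0) (g 0)‖ * ‖x‖ ^ 2 := by
                linarith
            _ ≤ s * ‖x‖ ^ 2 := by gcongr
        · exact havg r hr0 hr
    _ = 5 * s * ‖x‖ ^ 2 := by
        field_simp
        ring

/-- pointwise (in the vector) Cauchy property of the real part -/
lemma Good.pt_cauchy (h : Good g) (x : N) {r : ℕ → ℝ} (hr0 : ∀ n, 0 ≤ r n)
    (hr1 : ∀ n, r n < 1) (hr : Tendsto r atTop (𝓝 1)) :
    Tendsto (fun p : ℕ × ℕ => Real.circleAverage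
      (fun ζ => |(inner ℂ x (UU (g ((r p.1 : ℂ) * ζ)) x) : ℂ).re
        - (inner ℂ x (UU (g ((r p.2 : ℂ) * ζ)) x) : ℂ).re|) 0 1) atTop (𝓝 0) := by
  rw [Metric.tendsto_atTop]
  intro ε hε
  obtain ⟨η, w, hη, hη1, hwd, hw, hg, havg⟩ := h.weight (ε / (40 * (‖x‖ ^ 2 + 1)))
    (by positivity)
  have hk := diff_inner (h.K_diff hη hwd hw) x
  have hD : DifferentiableOn ℂ (fun z => DD (η * w z) (g z)) (ball 0 1) := by
    unfold DD
    exact h.U_diff.sub (h.K_diff hη hwd hw)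
  have hd := diff_inner hD x
  have hu := diff_inner h.U_diff x
  have hkb : ∀ z ∈ ball (0:ℂ) 1, ‖(inner ℂ x (KK (η * w z) (g z) x) : ℂ)‖
      ≤ 1 / η * ‖x‖ ^ 2 := by
    intro z hz
    calc ‖(inner ℂ x (KK (η * w z) (g z) x) : ℂ)‖ ≤ ‖x‖ * ‖KK (η * w z) (g z) x‖ :=
          norm_inner_le_norm _ _
      _ ≤ ‖x‖ * (‖KK (η * w z) (g z)‖ * ‖x‖) := by
          gcongr; exact (KK (η * w z) (g z)).le_opNorm x
      _ ≤ ‖x‖ * (1 / η * ‖x‖) := by
          gcongr; exact KK_norm_le (h.lt z hz) hη (hw z hz) (hg z hz)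
      _ = 1 / η * ‖x‖ ^ 2 := by ring
  have hc := bdd_cauchy hk hkb hr0 hr1 hr
  obtain ⟨P, hP⟩ := (Metric.tendsto_atTop.1 hc) (ε / 4) (by positivity)
  refine ⟨P, fun p hp => ?_⟩
  have h1 := hP p hp
  have hnn : ∀ f : ℂ → ℝ, (∀ z, 0 ≤ f z) → 0 ≤ Real.circleAverage f 0 1 := fun f hf =>
    Real.circleAverage_nonneg_of_nonneg (fun _ _ => hf _)
  rw [dist_zero_right, Real.norm_eq_abs, abs_of_nonneg (hnn _ (fun _ => norm_nonneg _))] at h1
  rw [dist_zero_right, Real.norm_eq_abs, abs_of_nonneg (hnn _ (fun _ => abs_nonneg _))]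
  set u : ℂ → ℂ := fun z => inner ℂ x (UU (g z) x) with hud
  set k : ℂ → ℂ := fun z => inner ℂ x (KK (η * w z) (g z) x) with hkd
  set d : ℂ → ℂ := fun z => inner ℂ x (DD (η * w z) (g z) x) with hdd
  have hukd : ∀ z, u z = k z + d z := by
    intro z
    simp only [hud, hkd, hdd, DD]
    rw [← inner_add_right]
    congr 1
    rw [ContinuousLinearMap.sub_apply]
    abel
  have cdil : ∀ {F : Type} [NormedAddCommGroup F] (f : ℂ → F), ContinuousOn f (ball 0 1) →
      ∀ n, ContinuousOn (fun ζ => f ((r n : ℂ) * ζ)) (sphere 0 1) := fun f hf n =>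
    cont_dil hf (hr0 n) (hr1 n)
  have cu : ContinuousOn (fun z => (u z).re) (ball 0 1) :=
    continuous_re.comp_continuousOn hu.continuousOn
  have cdr : ContinuousOn (fun z => |(d z).re|) (ball 0 1) :=
    (continuous_re.comp_continuousOn hd.continuousOn).abs
  have hdavg : ∀ n, Real.circleAverage (fun ζ => |(d ((r n : ℂ) * ζ)).re|) 0 1 ≤ ε / 8 := by
    intro n
    have h2 := h.D_avg hη hη1 (by positivity) hwd hw hg havg x (hr0 n) (hr1 n)
    rw [avg_dil (fun z => |(d z).re|) (r n)]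
    refine h2.trans ?_
    rw [mul_assoc, div_mul_eq_mul_div, ← mul_div_assoc, div_le_div_iff₀ (by positivity)
      (by norm_num)]
    nlinarith [sq_nonneg ‖x‖]
  have i1 : CircleIntegrable (fun ζ => ‖k ((r p.1 : ℂ) * ζ) - k ((r p.2 : ℂ) * ζ)‖) 0 1 :=
    cInt' (((cdil _ hk.continuousOn p.1).sub (cdil _ hk.continuousOn p.2)).norm)
  have i2 : CircleIntegrable (fun ζ => |(d ((r p.1 : ℂ) * ζ)).re|) 0 1 := cInt' (cdil _ cdr p.1)
  have i3 : CircleIntegrable (fun ζ => |(d ((r p.2 : ℂ) * ζ)).re|) 0 1 := cInt' (cdil _ cdr p.2)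
  have i12 : CircleIntegrable (fun ζ => ‖k ((r p.1 : ℂ) * ζ) - k ((r p.2 : ℂ) * ζ)‖
      + |(d ((r p.1 : ℂ) * ζ)).re|) 0 1 := i1.add i2
  calc Real.circleAverage (fun ζ => |(u ((r p.1 : ℂ) * ζ)).re - (u ((r p.2 : ℂ) * ζ)).re|) 0 1
      ≤ Real.circleAverage (fun ζ => ‖k ((r p.1 : ℂ) * ζ) - k ((r p.2 : ℂ) * ζ)‖
        + |(d ((r p.1 : ℂ) * ζ)).re| + |(d ((r p.2 : ℂ) * ζ)).re|) 0 1 := by
        apply Real.circleAverage_mono
        · exact cInt' (((cdil _ cu p.1).sub (cdil _ cu p.2)).abs)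
        · exact i12.add i3
        · intro ζ _
          rw [hukd, hukd, add_re, add_re]
          have e1 : (k ((r p.1 : ℂ) * ζ)).re + (d ((r p.1 : ℂ) * ζ)).re
              - ((k ((r p.2 : ℂ) * ζ)).re + (d ((r p.2 : ℂ) * ζ)).re)
              = (k ((r p.1 : ℂ) * ζ) - k ((r p.2 : ℂ) * ζ)).re + (d ((r p.1 : ℂ) * ζ)).re
                + (-(d ((r p.2 : ℂ) * ζ)).re) := by
            rw [sub_re]; ring
          rw [e1]
          refine (abs_add_le _ _).trans ?_
          rw [abs_neg]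
          gcongr
          refine (abs_add_le _ _).trans ?_
          gcongr
          exact Complex.abs_re_le_norm _
    _ = Real.circleAverage (fun ζ => ‖k ((r p.1 : ℂ) * ζ) - k ((r p.2 : ℂ) * ζ)‖) 0 1
        + Real.circleAverage (fun ζ => |(d ((r p.1 : ℂ) * ζ)).re|) 0 1
        + Real.circleAverage (fun ζ => |(d ((r p.2 : ℂ) * ζ)).re|) 0 1 := by
        rw [Real.circleAverage_fun_add i12 i3, Real.circleAverage_fun_add i1 i2]
    _ < ε / 4 + ε / 8 + ε / 8 + ε / 8 := by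
        have := hdavg p.1
        have := hdavg p.2
        linarith
    _ ≤ ε := by linarith

end good

end Pool.Agent.Work.MP_3b4bb3_an
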