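import Mathlib

set_option autoImplicit false

open MeasureTheory Filter Topology Complex Metric

namespace Pool.Agent.Work.MP_3b4bb3_an

section basic

variable {E : Type*} [NormedAddCommGroup E] [NormedSpace ℂ E]

lemma dcc {f : ℂ → E} (hf : DifferentiableOn ℂ f (ball 0 1)) {r : ℝ} (hr0 : 0 ≤ r)
    (hr : r < 1) : DiffContOnCl ℂ f (ball 0 |r|) := by
  rw [abs_of_nonneg hr0]
  apply DifferentiableOn.diffContOnCl
  apply hf.mono
  intro z hz
  have := closure_ball_subset_closedBall hz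
  simp only [mem_closedBall, dist_zero_right] at this
  simp only [mem_ball, dist_zero_right]
  linarith

lemma sphere_sub {r : ℝ} (_hr0 : 0 ≤ r) (hr : r < 1) : sphere (0 : ℂ) r ⊆ ball 0 1 := by
  intro z hz
  simp only [mem_sphere_iff_norm, sub_zero] at hz
  simp only [mem_ball, dist_zero_right]
  linarith

lemma cInt {F : Type*} [NormedAddCommGroup F] {f : ℂ → F}
    (hf : ContinuousOn f (ball 0 1)) {r : ℝ} (hr0 : 0 ≤ r) (hr : r < 1) :
    CircleIntegrable f 0 r :=
  ContinuousOn.circleIntegrable hr0 (hf.mono (sphere_sub hr0 hr))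

lemma avg_eq [CompleteSpace E] {f : ℂ → E} (hf : DifferentiableOn ℂ f (ball 0 1)) {r : ℝ}
    (hr0 : 0 ≤ r) (hr : r < 1) : Real.circleAverage f 0 r = f 0 :=
  (dcc hf hr0 hr).circleAverage

end basic

lemma avg_re {f : ℂ → ℂ} (hf : DifferentiableOn ℂ f (ball 0 1)) {r : ℝ}
    (hr0 : 0 ≤ r) (hr : r < 1) : Real.circleAverage (fun z => (f z).re) 0 r = (f 0).re := by
  have := ContinuousLinearMap.circleAverage_comp_comm (c := 0) (R := r) reCLM
    (cInt hf.continuousOn hr0 hr)
  rw [avg_eq hf hr0 hr] at this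
  simpa [Function.comp_def] using this

/-- circle averages of a holomorphic function with real part in `[0,1]`. -/
lemma avg_norm_sq_le {f : ℂ → ℂ} (hf : DifferentiableOn ℂ f (ball 0 1))
    (h0 : ∀ z ∈ ball (0:ℂ) 1, 0 ≤ (f z).re) (h1 : ∀ z ∈ ball (0:ℂ) 1, (f z).re ≤ 1)
    {r : ℝ} (hr0 : 0 ≤ r) (hr : r < 1) :
    Real.circleAverage (fun z => ‖f z‖ ^ 2) 0 r ≤ 2 * (f 0).re + ‖f 0‖ ^ 2 := by
  have hsq : DifferentiableOn ℂ (fun z => (f z) ^ 2) (ball 0 1) := hf.pow 2
  have e1 : ∀ w : ℂ, ‖w‖ ^ 2 = 2 * w.re ^ 2 - (w ^ 2).re := by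
    intro w
    rw [← Complex.normSq_eq_norm_sq, Complex.normSq_apply]
    simp [pow_two]
    ring
  have c1 : ContinuousOn (fun z => 2 * (f z).re) (ball 0 1) :=
    (continuous_re.comp_continuousOn hf.continuousOn).const_smul (2:ℝ)
  have c2 : ContinuousOn (fun z => ((f z) ^ 2).re) (ball 0 1) :=
    continuous_re.comp_continuousOn hsq.continuousOn
  have c3 : ContinuousOn (fun z => ‖f z‖ ^ 2) (ball 0 1) := hf.continuousOn.norm.pow 2
  calc Real.circleAverage (fun z => ‖f z‖ ^ 2) 0 r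
      ≤ Real.circleAverage (fun z => 2 * (f z).re - ((f z) ^ 2).re) 0 r := by
        apply Real.circleAverage_mono (cInt c3 hr0 hr) (cInt (c1.sub c2) hr0 hr)
        intro z hz
        rw [abs_of_nonneg hr0] at hz
        have hz' := sphere_sub hr0 hr hz
        rw [e1 (f z)]
        have := h0 z hz'
        have := h1 z hz'
        simp only [Pi.sub_apply]
        nlinarith
    _ = 2 * (f 0).re - ((f 0) ^ 2).re := by
        rw [Real.circleAverage_fun_sub (cInt c1 hr0 hr) (cInt c2 hr0 hr), avg_re hsq hr0 hr]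
        have := avg_re (f := fun z => (2:ℂ) * f z) (hf.const_mul 2) hr0 hr
        simp only [mul_re, re_ofNat, im_ofNat, zero_mul, sub_zero] at this
        rw [this]
    _ ≤ 2 * (f 0).re + ‖f 0‖ ^ 2 := by
        have := Complex.abs_re_le_norm ((f 0) ^ 2)
        rw [norm_pow] at this
        have := neg_abs_le ((f 0) ^ 2).re
        linarith

lemma avg_norm_le {f : ℂ → ℂ} (hf : DifferentiableOn ℂ f (ball 0 1))
    (h0 : ∀ z ∈ ball (0:ℂ) 1, 0 ≤ (f z).re) (h1 : ∀ z ∈ ball (0:ℂ) 1, (f z).re ≤ 1)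
    {s : ℝ} (hs : 0 < s) (hs1 : s ≤ 1) (hf0 : ‖f 0‖ ≤ s ^ 2)
    {r : ℝ} (hr0 : 0 ≤ r) (hr : r < 1) :
    Real.circleAverage (fun z => ‖f z‖) 0 r ≤ 2 * s := by
  have c3 : ContinuousOn (fun z => ‖f z‖ ^ 2) (ball 0 1) := hf.continuousOn.norm.pow 2
  have hsq := avg_norm_sq_le hf h0 h1 hr0 hr
  have c4 : ContinuousOn (fun z => s / 2 + (2 * s)⁻¹ * ‖f z‖ ^ 2) (ball 0 1) :=
    continuousOn_const.add (c3.const_smul (2 * s)⁻¹)
  have c5 : ContinuousOn (fun z => (2 * s)⁻¹ * ‖f z‖ ^ 2) (ball 0 1) :=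
    (c3.const_smul (2 * s)⁻¹)
  calc Real.circleAverage (fun z => ‖f z‖) 0 r
      ≤ Real.circleAverage (fun z => s / 2 + (2 * s)⁻¹ * ‖f z‖ ^ 2) 0 r := by
        apply Real.circleAverage_mono (cInt hf.continuousOn.norm hr0 hr) (cInt c4 hr0 hr)
        intro z hz
        have h2 : s / 2 + (2 * s)⁻¹ * ‖f z‖ ^ 2 - ‖f z‖ = (2 * s)⁻¹ * (‖f z‖ - s) ^ 2 := by
          field_simp
          ring
        have h3 : 0 ≤ (2 * s)⁻¹ * (‖f z‖ - s) ^ 2 := by positivity
        linarith
    _ = s / 2 + (2 * s)⁻¹ * Real.circleAverage (fun z => ‖f z‖ ^ 2) 0 r := by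
        rw [Real.circleAverage_fun_add (cInt continuousOn_const hr0 hr) (cInt c5 hr0 hr),
          Real.circleAverage_const]
        congr 1
        have := Real.circleAverage_fun_smul (f := fun z => ‖f z‖ ^ 2) (c := 0) (R := r)
          (a := (2 * s)⁻¹)
        simpa [smul_eq_mul] using this
    _ ≤ s / 2 + (2 * s)⁻¹ * (3 * s ^ 2) := by
        gcongr
        have h4 : (f 0).re ≤ ‖f 0‖ := Complex.re_le_norm _
        have h5 : ‖f 0‖ ^ 2 ≤ s ^ 2 := by
          have : ‖f 0‖ ≤ 1 * s := by nlinarith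
          rw [one_mul] at this
          gcongr
        linarith
    _ = 2 * s := by field_simp; ring

/-- The Cayley map of the disc onto the right half plane. -/
noncomputable def cay (z : ℂ) : ℂ := (1 - z) / (1 + z)

lemma one_add_ne {z : ℂ} (hz : z ∈ ball (0:ℂ) 1) : 1 + z ≠ 0 := by
  intro h
  have : z = -1 := by linear_combination h
  rw [this] at hz
  simp at hz

lemma cay_re_pos {z : ℂ} (hz : z ∈ ball (0:ℂ) 1) : 0 < (cay z).re := by
  have h1 := one_add_ne hz
  have h2 : 0 < normSq (1 + z) := normSq_pos.2 h1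
  have h3 : ‖z‖ < 1 := by simpa using hz
  have h4 : z.re * z.re + z.im * z.im < 1 := by
    rw [← Complex.normSq_apply, Complex.normSq_eq_norm_sq]
    have := norm_nonneg z
    nlinarith
  rw [cay, Complex.div_re, ← add_div]
  apply div_pos _ h2
  simp
  nlinarith

lemma cay_differentiableOn : DifferentiableOn ℂ cay (ball 0 1) := by
  intro z hz
  apply DifferentiableAt.differentiableWithinAt
  unfold cay
  have := one_add_ne hz
  fun_prop (disch := assumption)

/-- The function with real part the harmonic measure of an arc around `1`. -/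
noncomputable def om (t : ℝ) (z : ℂ) : ℂ :=
  (log (cay z + t * I) - log (cay z - t * I)) / (Real.pi * I)

lemma om_differentiableOn (t : ℝ) : DifferentiableOn ℂ (om t) (ball 0 1) := by
  have h1 : DifferentiableOn ℂ (fun z => log (cay z + t * I)) (ball 0 1) := by
    apply DifferentiableOn.clog (cay_differentiableOn.add_const _)
    intro z hz
    left
    simpa using cay_re_pos hz
  have h2 : DifferentiableOn ℂ (fun z => log (cay z - t * I)) (ball 0 1) := by
    apply DifferentiableOn.clog (cay_differentiableOn.sub_const _)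
    intro z hz
    left
    simpa using cay_re_pos hz
  exact (h1.sub h2).div_const _

lemma arg_eq_arctan' {w : ℂ} (hw : 0 < w.re) : arg w = Real.arctan (w.im / w.re) := by
  rw [← Complex.tan_arg, Real.arctan_tan]
  · have := Complex.abs_arg_lt_pi_div_two_iff.2 (Or.inl hw)
    linarith [neg_abs_le (arg w)]
  · have := Complex.abs_arg_lt_pi_div_two_iff.2 (Or.inl hw)
    linarith [le_abs_self (arg w)]

lemma re_div_pi_I (w : ℂ) : (w / (Real.pi * I)).re = w.im / Real.pi := by
  have h : w / (Real.pi * I) = (-I * w) / (Real.pi : ℂ) := by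
    have := I_ne_zero
    have hp : (Real.pi : ℂ) ≠ 0 := by exact_mod_cast Real.pi_ne_zero
    field_simp
    rw [I_sq]
    ring
  rw [h, Complex.div_ofReal_re]
  simp

lemma om_re (t : ℝ) (z : ℂ) :
    (om t z).re = (arg (cay z + t * I) - arg (cay z - t * I)) / Real.pi := by
  rw [om, re_div_pi_I]
  simp [Complex.log_im]

lemma om_re_nonneg {t : ℝ} (ht : 0 < t) {z : ℂ} (hz : z ∈ ball (0:ℂ) 1) : 0 ≤ (om t z).re := by
  rw [om_re]
  have hp := cay_re_pos hz
  have h1 : 0 < (cay z + t * I).re := by simpa using hp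
  have h2 : 0 < (cay z - t * I).re := by simpa using hp
  apply div_nonneg _ Real.pi_pos.le
  rw [arg_eq_arctan' h1, arg_eq_arctan' h2, sub_nonneg]
  apply Real.arctan_strictMono.monotone
  simp only [add_re, mul_re, ofReal_re, I_re, mul_zero, ofReal_im, I_im, mul_one, sub_self,
    add_zero, add_im, mul_im, sub_re, sub_im, sub_zero]
  gcongr
  linarith

lemma om_re_le_one {t : ℝ} {z : ℂ} (hz : z ∈ ball (0:ℂ) 1) : (om t z).re ≤ 1 := by
  rw [om_re]
  have hp := cay_re_pos hz
  have h1 : 0 < (cay z + t * I).re := by simpa using hp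
  have h2 : 0 < (cay z - t * I).re := by simpa using hp
  have h3 := Complex.abs_arg_lt_pi_div_two_iff.2 (Or.inl h1)
  have h4 := Complex.abs_arg_lt_pi_div_two_iff.2 (Or.inl h2)
  rw [div_le_one Real.pi_pos]
  have := abs_lt.1 h3
  have := abs_lt.1 h4
  linarith

lemma norm_log_le' (w : ℂ) : ‖log w‖ ≤ |Real.log ‖w‖| + Real.pi := by
  have : log w = (Real.log ‖w‖ : ℂ) + (arg w : ℂ) * I := rfl
  rw [this]
  refine (norm_add_le _ _).trans ?_
  rw [norm_mul, norm_I, mul_one, Complex.norm_real, Complex.norm_real, Real.norm_eq_abs,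
    Real.norm_eq_abs]
  gcongr
  exact Complex.abs_arg_le_pi w

lemma om_zero_norm {t : ℝ} (ht : 0 < t) (ht2 : t ≤ 1 / 2) : ‖om t 0‖ ≤ t := by
  have hc : cay 0 = 1 := by simp [cay]
  rw [om, hc, norm_div]
  have h1 : ‖log (1 + (t:ℂ) * I)‖ ≤ 3 / 2 * t := by
    have := Complex.norm_log_one_add_half_le_self (z := (t:ℂ) * I)
      (by simpa [abs_of_pos ht] using ht2)
    simpa [abs_of_pos ht] using this
  have h2 : ‖log (1 - (t:ℂ) * I)‖ ≤ 3 / 2 * t := by
    have := Complex.norm_log_one_add_half_le_self (z := -((t:ℂ) * I))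
      (by simpa [abs_of_pos ht] using ht2)
    rw [← sub_eq_add_neg] at this
    simpa [abs_of_pos ht] using this
  have h3 : ‖(Real.pi : ℂ) * I‖ = Real.pi := by simp [abs_of_pos Real.pi_pos]
  rw [h3, div_le_iff₀ Real.pi_pos]
  refine (norm_sub_le _ _).trans ?_
  have := Real.pi_gt_three
  nlinarith

end Pool.Agent.Work.MP_3b4bb3_an
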