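import Pool.Agent.Work.MP_3b4bb3_an.Defs
import Pool.Agent.Work.MP_3b4bb3_an.Omega

set_option autoImplicit false

open MeasureTheory Filter Topology Complex Metric

namespace Pool.Agent.Work.MP_3b4bb3_an

/-- the sequence of values -/
noncomputable def eta : ℕ → ℝ
  | 0 => 1 / 8
  | (n + 1) => Real.exp (-(eta n ^ 4)⁻¹) / 8

/-- the sequence of half-lengths -/
noncomputable def tt (n : ℕ) : ℝ := eta n ^ 4

lemma eta_pos (n : ℕ) : 0 < eta n := by
  cases n with
  | zero => simp [eta]
  | succ n => simp only [eta]; positivity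

lemma tt_pos (n : ℕ) : 0 < tt n := pow_pos (eta_pos n) 4

lemma eta_succ_le (n : ℕ) : eta (n + 1) ≤ eta n ^ 4 / 8 := by
  have h := tt_pos n
  rw [tt] at h
  simp only [eta]
  have h1 : Real.exp (-(eta n ^ 4)⁻¹) ≤ eta n ^ 4 := by
    rw [Real.exp_neg]
    apply inv_le_of_inv_le₀ h
    have := Real.add_one_le_exp ((eta n ^ 4)⁻¹)
    linarith
  linarith

lemma eta_le (n : ℕ) : eta n ≤ 1 / 8 := by
  induction n with
  | zero => simp [eta]
  | succ n ih =>
    have h1 := eta_succ_le n
    have h2 := eta_pos n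
    have h3 : eta n ^ 4 ≤ 1 := pow_le_one₀ h2.le (by linarith)
    linarith

lemma eta_half (n : ℕ) : eta (n + 1) ≤ eta n / 2 := by
  have h1 := eta_succ_le n
  have h2 := eta_pos n
  have h3 : eta n ^ 4 ≤ eta n := by
    have := pow_le_of_le_one h2.le (by linarith [eta_le n] : eta n ≤ 1) (n := 4) (by norm_num)
    exact this
  linarith

lemma eta_geom (n j : ℕ) : eta (n + j) ≤ eta n * (1 / 2) ^ j := by
  induction j with
  | zero => simp
  | succ j ih =>
    have := eta_half (n + j)
    rw [← add_assoc, pow_succ]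
    linarith

lemma eta_summable (n : ℕ) : Summable (fun j => eta (n + j)) := by
  apply Summable.of_nonneg_of_le (fun j => (eta_pos _).le) (fun j => eta_geom n j)
  exact summable_geometric_two.mul_left _

lemma eta_summable' : Summable eta := by simpa using eta_summable 0

lemma eta_tsum_le (n : ℕ) : ∑' j, eta (n + j) ≤ 2 * eta n := by
  calc ∑' j, eta (n + j) ≤ ∑' j : ℕ, eta n * (1 / 2 : ℝ) ^ j :=
        Summable.tsum_le_tsum (eta_geom n) (eta_summable n) (summable_geometric_two.mul_left _)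
    _ = 2 * eta n := by rw [tsum_mul_left, tsum_geometric_two]; ring

lemma eta_tendsto : Tendsto eta atTop (𝓝 0) := eta_summable'.tendsto_atTop_zero

lemma tt_tendsto : Tendsto tt atTop (𝓝 0) := by
  have h := eta_tendsto.pow 4
  rw [zero_pow (by norm_num)] at h
  exact h

lemma eta_anti : Antitone eta := by
  apply antitone_nat_of_succ_le
  intro n
  have := eta_half n
  have := eta_pos n
  linarith

lemma tt_anti : Antitone tt := fun _ _ h => pow_le_pow_left₀ (eta_pos _).le (eta_anti h) 4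

lemma tt_le_half (n : ℕ) : tt n ≤ 1 / 2 := by
  have h1 := eta_le n
  have h2 := eta_pos n
  have h3 : eta n ^ 4 ≤ (1 / 8) ^ 4 := pow_le_pow_left₀ h2.le h1 4
  rw [tt]
  norm_num at h3 ⊢
  linarith

lemma tt_succ (n : ℕ) : 4 * tt (n + 1) ≤ tt n := by
  have h1 := eta_half n
  have h2 := eta_pos n
  have h4 := eta_pos (n + 1)
  have h3 : eta (n + 1) ^ 4 ≤ (eta n / 2) ^ 4 := pow_le_pow_left₀ h4.le h1 4
  rw [tt, tt]
  have : (eta n / 2) ^ 4 = eta n ^ 4 / 16 := by ring
  have h5 : 0 < eta n ^ 4 := by positivity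
  linarith

/-- the terms of the series defining `- log (χ(z)/z)` -/
noncomputable def hterm (n : ℕ) (z : ℂ) : ℂ := (eta n : ℂ) * (1 - om (tt n) z)

noncomputable def HH (z : ℂ) : ℂ := ∑' n, hterm n z

/-- the scalar function -/
noncomputable def chi0 (z : ℂ) : ℂ := z * exp (-HH z)

lemma hterm_differentiableOn (n : ℕ) : DifferentiableOn ℂ (hterm n) (ball 0 1) :=
  ((om_differentiableOn (tt n)).const_sub 1).const_mul _

lemma hterm_re (n : ℕ) (z : ℂ) : (hterm n z).re = eta n * (1 - (om (tt n) z).re) := by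
  simp [hterm]

lemma hterm_re_nonneg (n : ℕ) {z : ℂ} (hz : z ∈ ball (0:ℂ) 1) : 0 ≤ (hterm n z).re := by
  rw [hterm_re]
  have := om_re_le_one (t := tt n) hz
  have := eta_pos n
  exact mul_nonneg this.le (by linarith)

lemma hterm_re_le (n : ℕ) {z : ℂ} (hz : z ∈ ball (0:ℂ) 1) : (hterm n z).re ≤ eta n := by
  rw [hterm_re]
  have := om_re_nonneg (tt_pos n) hz
  have := eta_pos n
  nlinarith

/-- bound for `om` in terms of a lower bound for the distances. -/
lemma om_norm_le {t d R : ℝ} {z : ℂ} (hd : 0 < d) (h1 : d ≤ ‖cay z + t * I‖)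
    (h2 : d ≤ ‖cay z - t * I‖) (h3 : ‖cay z + t * I‖ ≤ R) (h4 : ‖cay z - t * I‖ ≤ R) :
    ‖om t z‖ ≤ |Real.log d| + |Real.log R| + Real.pi := by
  have key : ∀ w : ℂ, d ≤ ‖w‖ → ‖w‖ ≤ R → ‖log w‖ ≤ |Real.log d| + |Real.log R| + Real.pi := by
    intro w hw1 hw2
    refine (norm_log_le' w).trans ?_
    gcongr
    have hw0 : 0 < ‖w‖ := lt_of_lt_of_le hd hw1
    have e1 : Real.log d ≤ Real.log ‖w‖ := Real.log_le_log hd hw1
    have e2 : Real.log ‖w‖ ≤ Real.log R := Real.log_le_log hw0 hw2
    rw [abs_le]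
    constructor
    · have := neg_abs_le (Real.log d)
      have := abs_nonneg (Real.log R)
      linarith
    · have := le_abs_self (Real.log R)
      have := abs_nonneg (Real.log d)
      linarith
  rw [om, norm_div]
  have h5 : ‖(Real.pi : ℂ) * I‖ = Real.pi := by simp [abs_of_pos Real.pi_pos]
  rw [h5, div_le_iff₀ Real.pi_pos]
  refine (norm_sub_le _ _).trans ?_
  have k1 := key _ h1 h3
  have k2 := key _ h2 h4
  have := Real.pi_gt_three
  have h6 : 0 ≤ |Real.log d| + |Real.log R| + Real.pi := by positivity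
  nlinarith

lemma HH_differentiableOn : DifferentiableOn ℂ HH (ball 0 1) := by
  intro z hz
  -- neighbourhood on which `cay` has real part bounded below and norm bounded above
  have hc : ContinuousAt cay z :=
    ((cay_differentiableOn z hz).differentiableAt (isOpen_ball.mem_nhds hz)).continuousAt
  set d := (cay z).re / 2 with hd
  have hd0 : 0 < d := by have := cay_re_pos hz; positivity
  set R := ‖cay z‖ + 2 with hR
  have e1 : ∀ᶠ w in 𝓝 z, d < (cay w).re := by
    apply (continuous_re.continuousAt.comp hc).eventually (lt_mem_nhds _)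
    have := cay_re_pos hz
    simp only [hd, Function.comp]
    linarith
  have e2 : ∀ᶠ w in 𝓝 z, ‖cay w‖ < ‖cay z‖ + 1 := by
    apply (continuous_norm.continuousAt.comp hc).eventually (gt_mem_nhds _)
    simp only [Function.comp]
    linarith
  obtain ⟨ρ, hρ, hball⟩ := Metric.eventually_nhds_iff_ball.1
    ((e1.and e2).and (isOpen_ball.mem_nhds hz))
  have key : DifferentiableOn ℂ HH (ball z ρ) := by
    apply differentiableOn_tsum_of_summable_norm
      (u := fun n => eta n * (1 + (|Real.log d| + |Real.log R| + Real.pi)))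
      (eta_summable'.mul_right _) (fun n => ?_) isOpen_ball (fun n w hw => ?_)
    · apply (hterm_differentiableOn n).mono
      intro w hw
      exact (hball w hw).2
    · obtain ⟨⟨h1, h2⟩, h3⟩ := hball w hw
      have ht := tt_pos n
      have ht2 := tt_le_half n
      have g1 : d ≤ ‖cay w + tt n * I‖ := by
        refine le_trans ?_ (Complex.re_le_norm _)
        simp; exact h1.le
      have g2 : d ≤ ‖cay w - tt n * I‖ := by
        refine le_trans ?_ (Complex.re_le_norm _)
        simp; exact h1.le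
      have g3 : ‖cay w + tt n * I‖ ≤ R := by
        refine (norm_add_le _ _).trans ?_
        rw [norm_mul, norm_I, Complex.norm_real, Real.norm_eq_abs, abs_of_pos ht]
        linarith
      have g4 : ‖cay w - tt n * I‖ ≤ R := by
        refine (norm_sub_le _ _).trans ?_
        rw [norm_mul, norm_I, Complex.norm_real, Real.norm_eq_abs, abs_of_pos ht]
        linarith
      rw [hterm, norm_mul, Complex.norm_real, Real.norm_eq_abs, abs_of_pos (eta_pos n)]
      have := eta_pos n
      gcongr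
      refine (norm_sub_le _ _).trans ?_
      rw [norm_one]
      gcongr
      exact om_norm_le hd0 g1 g2 g3 g4
  exact (key.differentiableAt (ball_mem_nhds z hρ)).differentiableWithinAt

lemma chi0_differentiableOn : DifferentiableOn ℂ chi0 (ball 0 1) :=
  differentiableOn_id.mul (HH_differentiableOn.neg.cexp)

lemma hterm_summable {z : ℂ} (hz : z ∈ ball (0:ℂ) 1) : Summable (fun n => hterm n z) := by
  set d := (cay z).re with hd
  have hd0 : 0 < d := cay_re_pos hz
  set R := ‖cay z‖ + 1 with hR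
  apply Summable.of_norm_bounded
    (g := fun n => eta n * (1 + (|Real.log d| + |Real.log R| + Real.pi)))
    (eta_summable'.mul_right _)
  intro n
  have ht := tt_pos n
  have ht2 := tt_le_half n
  have g1 : d ≤ ‖cay z + tt n * I‖ := by
    refine le_trans ?_ (Complex.re_le_norm _)
    simp [hd]
  have g2 : d ≤ ‖cay z - tt n * I‖ := by
    refine le_trans ?_ (Complex.re_le_norm _)
    simp [hd]
  have g3 : ‖cay z + tt n * I‖ ≤ R := by
    refine (norm_add_le _ _).trans ?_
    rw [norm_mul, norm_I, Complex.norm_real, Real.norm_eq_abs, abs_of_pos ht]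
    linarith
  have g4 : ‖cay z - tt n * I‖ ≤ R := by
    refine (norm_sub_le _ _).trans ?_
    rw [norm_mul, norm_I, Complex.norm_real, Real.norm_eq_abs, abs_of_pos ht]
    linarith
  rw [hterm, norm_mul, Complex.norm_real, Real.norm_eq_abs, abs_of_pos (eta_pos n)]
  have := eta_pos n
  gcongr
  refine (norm_sub_le _ _).trans ?_
  rw [norm_one]
  gcongr
  exact om_norm_le hd0 g1 g2 g3 g4

lemma HH_re_ge {z : ℂ} (hz : z ∈ ball (0:ℂ) 1) (n : ℕ) :
    eta n * (1 - (om (tt n) z).re) ≤ (HH z).re := by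
  rw [HH, Complex.re_tsum (hterm_summable hz), ← hterm_re]
  exact (Complex.hasSum_re (hterm_summable hz).hasSum).summable.le_tsum n
    (fun j _ => hterm_re_nonneg j hz)

lemma HH_re_nonneg {z : ℂ} (hz : z ∈ ball (0:ℂ) 1) : 0 ≤ (HH z).re := by
  refine le_trans ?_ (HH_re_ge hz 0)
  rw [← hterm_re]
  exact hterm_re_nonneg 0 hz

lemma chi0_norm (z : ℂ) : ‖chi0 z‖ = ‖z‖ * Real.exp (-(HH z).re) := by
  rw [chi0, norm_mul, Complex.norm_exp, neg_re]

lemma chi0_norm_le {z : ℂ} (hz : z ∈ ball (0:ℂ) 1) : ‖chi0 z‖ ≤ ‖z‖ := by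
  rw [chi0_norm]
  have h1 : Real.exp (-(HH z).re) ≤ 1 := Real.exp_le_one_iff.2 (by linarith [HH_re_nonneg hz])
  exact mul_le_of_le_one_right (norm_nonneg _) h1

lemma one_sub_exp_ge {x : ℝ} (h0 : 0 ≤ x) (h1 : x ≤ 1) : x / 2 ≤ 1 - Real.exp (-x) := by
  have h2 := Real.add_one_le_exp x
  have h3 : 0 < 1 + x := by linarith
  have h4 : Real.exp (-x) ≤ (1 + x)⁻¹ := by
    rw [Real.exp_neg]
    apply inv_anti₀ h3
    linarith
  have h5 : x / 2 ≤ 1 - (1 + x)⁻¹ := by
    have : 1 - (1 + x)⁻¹ = x / (1 + x) := by field_simp; ring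
    rw [this]
    apply div_le_div_of_nonneg_left h0 h3
    linarith
  linarith

lemma chi0_lower {z : ℂ} (hz : z ∈ ball (0:ℂ) 1) (n : ℕ) :
    (eta n / 2) * (1 - (om (tt n) z).re) ≤ 1 - ‖chi0 z‖ := by
  rw [chi0_norm]
  set x := eta n * (1 - (om (tt n) z).re) with hx
  have hx0 : 0 ≤ x := by rw [hx, ← hterm_re]; exact hterm_re_nonneg n hz
  have hx1 : x ≤ 1 := by
    rw [hx, ← hterm_re]
    have := hterm_re_le n hz
    have := eta_le n
    linarith
  have h1 := one_sub_exp_ge hx0 hx1
  have h2 : Real.exp (-(HH z).re) ≤ Real.exp (-x) := Real.exp_le_exp.2 (by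
    have := HH_re_ge hz n
    linarith)
  have h3 : ‖z‖ ≤ 1 := by
    have : ‖z‖ < 1 := by simpa using hz
    exact this.le
  have h4 : ‖z‖ * Real.exp (-(HH z).re) ≤ 1 * Real.exp (-x) := by
    gcongr
  have h5 : (eta n / 2) * (1 - (om (tt n) z).re) = x / 2 := by rw [hx]; ring
  rw [h5]
  linarith

lemma om_avg_le (n : ℕ) {r : ℝ} (hr0 : 0 ≤ r) (hr : r < 1) :
    Real.circleAverage (fun z => ‖om (tt n) z‖) 0 r ≤ 2 * eta n ^ 2 := by
  have h1 := eta_pos n
  have h2 := eta_le n
  apply avg_norm_le (om_differentiableOn _) (fun z hz => om_re_nonneg (tt_pos n) hz)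
    (fun z hz => om_re_le_one hz) (by positivity) (by nlinarith) _ hr0 hr
  refine (om_zero_norm (tt_pos n) (tt_le_half n)).trans ?_
  rw [tt]
  apply le_of_eq
  ring

end Pool.Agent.Work.MP_3b4bb3_an
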