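import Mathlib

set_option autoImplicit false

open MeasureTheory Filter Topology Complex Metric

namespace Pool.Agent.Work.MP_3b4bb3_an

universe u v

/-- The unit circle `𝕋 = {ζ ∈ ℂ : |ζ| = 1}`, with its usual topology and Borel sigma-algebra. -/
abbrev 𝕋 : Type := sphere (0 : ℂ) 1

/-- The point `exp (iθ)` of the unit circle. -/
noncomputable def circlePoint (θ : ℝ) : 𝕋 := ⟨exp (θ * I), by simp⟩

/-- The Lebesgue (arc length) measure `m` on the unit circle `𝕋`: the image of the Lebesgue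
measure on `(0, 2π]` under `θ ↦ exp (iθ)`. -/
noncomputable def arcMeasure : Measure 𝕋 :=
  (volume.restrict (Set.Ioc (0 : ℝ) (2 * Real.pi))).map circlePoint

/-- `𝔹(E,F)`: functions holomorphic on the unit disc whose values are bounded operators `E → F`
of norm at most `1`. -/
def Schur (E : Type u) (F : Type v)
    [NormedAddCommGroup E] [InnerProductSpace ℂ E] [NormedAddCommGroup F] [InnerProductSpace ℂ F] :
    Set (ℂ → (E →L[ℂ] F)) :=
  {χ | DifferentiableOn ℂ χ (ball 0 1) ∧ ∀ z ∈ ball (0 : ℂ) 1, ‖χ z‖ ≤ 1}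

/-- `𝔹⁰(E,F)`: the `χ ∈ 𝔹(E,F)` with `χ(0) = 0`. -/
def Schur0 (E : Type u) (F : Type v)
    [NormedAddCommGroup E] [InnerProductSpace ℂ E] [NormedAddCommGroup F] [InnerProductSpace ℂ F] :
    Set (ℂ → (E →L[ℂ] F)) :=
  {χ | χ ∈ Schur E F ∧ χ 0 = 0}

section

variable {M : Type u} {N : Type v}
    [NormedAddCommGroup M] [InnerProductSpace ℂ M] [NormedAddCommGroup N] [InnerProductSpace ℂ N]

/-- `F_ε(z) = (I + χ(z)ε(z)) (I - χ(z)ε(z))⁻¹`, an operator on `N`. -/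
noncomputable def herg (χ : ℂ → (M →L[ℂ] N)) (ε : ℂ → (N →L[ℂ] M)) (z : ℂ) : N →L[ℂ] N :=
  (1 + (χ z) ∘L (ε z)) * Ring.inverse (1 - (χ z) ∘L (ε z))

/-- `σ` is an extension measure for `χ` and `ε`: a countably additive measure on `𝕋` whose values
are nonnegative operators on `N`, with
`F_ε(z) = ∫ (ζ + z)/(ζ - z) dσ(ζ) / 2π` for all `z` in the unit disc. -/
def IsExtMeasure [CompleteSpace N] (χ : ℂ → (M →L[ℂ] N)) (ε : ℂ → (N →L[ℂ] M))
    (σ : VectorMeasure 𝕋 (N →L[ℂ] N)) : Prop :=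
  (∀ A : Set 𝕋, (σ A).IsPositive) ∧
  ∀ z ∈ ball (0 : ℂ) 1, herg χ ε z =
    (2 * Real.pi)⁻¹ • VectorMeasure.integral σ (fun ζ : 𝕋 => ((ζ : ℂ) + z) / ((ζ : ℂ) - z))
      (ContinuousLinearMap.lsmul ℝ ℂ)

/-- `b` is the (almost everywhere defined) radial boundary function of `χ` on `𝕋`. -/
def IsBoundaryValue (χ : ℂ → (M →L[ℂ] N)) (b : 𝕋 → (M →L[ℂ] N)) : Prop :=
  ∀ᵐ ζ : 𝕋 ∂arcMeasure, Tendsto (fun r : ℝ => χ ((r : ℂ) * (ζ : ℂ))) (𝓝[<] 1) (𝓝 (b ζ))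

/-- The Szego condition for `χ`: `log det (I_M - b(ζ)* b(ζ))` is integrable on `𝕋`, where `b` is
the boundary function of `χ`. (If the determinant vanishes on a set of positive measure then its
logarithm is `-∞` there and the condition fails.) -/
def Szego [CompleteSpace M] [CompleteSpace N] (χ : ℂ → (M →L[ℂ] N)) : Prop :=
  ∀ b : 𝕋 → (M →L[ℂ] N), IsBoundaryValue χ b →
    (∀ᵐ ζ ∂arcMeasure,
      LinearMap.det ((1 - (b ζ).adjoint ∘L (b ζ) : M →L[ℂ] M) : M →ₗ[ℂ] M) ≠ 0) ∧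
    Integrable (fun ζ => Real.log
      ‖LinearMap.det ((1 - (b ζ).adjoint ∘L (b ζ) : M →L[ℂ] M) : M →ₗ[ℂ] M)‖) arcMeasure

end

/-- `𝔹_a(M,N)`: the `χ ∈ 𝔹⁰(M,N)` such that, for every `ε ∈ 𝔹(N,M)`, the (unique) extension
measure `σ_ε` is absolutely continuous with respect to arc length. -/
def Ba (M : Type u) (N : Type v)
    [NormedAddCommGroup M] [InnerProductSpace ℂ M] [NormedAddCommGroup N] [InnerProductSpace ℂ N]
    [CompleteSpace N] : Set (ℂ → (M →L[ℂ] N)) :=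
  {χ | χ ∈ Schur0 M N ∧ ∀ ε ∈ Schur N M,
    (∃! σ : VectorMeasure 𝕋 (N →L[ℂ] N), IsExtMeasure χ ε σ) ∧
    ∀ σ : VectorMeasure 𝕋 (N →L[ℂ] N), IsExtMeasure χ ε σ →
      ∀ A : Set 𝕋, MeasurableSet A → arcMeasure A = 0 → σ A = 0}

end Pool.Agent.Work.MP_3b4bb3_an
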