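import Pool.Agent.Work.MP_3b4bb3_an.Cauchy
import Pool.Agent.Work.MP_3b4bb3_an.Bdry

set_option autoImplicit false

open MeasureTheory Filter Topology Complex Metric

namespace Pool.Agent.Work.MP_3b4bb3_an

lemma integral_arc {F : Type*} [NormedAddCommGroup F] [NormedSpace ℝ F] {f : ℂ → F}
    (hf : ContinuousOn f (sphere 0 1)) :
    ∫ ζ : 𝕋, f ζ ∂arcMeasure = (2 * Real.pi) • Real.circleAverage f 0 1 := by
  have hc : Continuous (fun ζ : 𝕋 => f ζ) := continuousOn_iff_continuous_restrict.1 hf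
  rw [arcMeasure, integral_map circlePoint_measurable.aemeasurable
    hc.aestronglyMeasurable, Real.circleAverage_def, smul_smul,
    mul_inv_cancel₀ (by positivity), one_smul, intervalIntegral.integral_of_le (by positivity)]
  simp only [circlePoint_coe, circleMap, zero_add, ofReal_one, one_mul]

lemma arc_integrable {F : Type*} [NormedAddCommGroup F] {f : 𝕋 → F}
    (hf : Continuous f) : Integrable f arcMeasure := by
  have : CompactSpace 𝕋 := inferInstance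
  exact hf.integrable_of_hasCompactSupport (HasCompactSupport.of_compactSpace f)

/-- `L¹` completeness in terms of functions. -/
lemma exists_L1_limit {F : Type*} [NormedAddCommGroup F] [NormedSpace ℝ F] [CompleteSpace F]
    {X : Type*} {m : MeasurableSpace X} {μ : Measure X} {f : ℕ → X → F}
    (hf : ∀ n, Integrable (f n) μ)
    (hc : Tendsto (fun p : ℕ × ℕ => ∫ x, ‖f p.1 x - f p.2 x‖ ∂μ) atTop (𝓝 0)) :
    ∃ W : X → F, Integrable W μ ∧ Tendsto (fun n => ∫ x, ‖f n x - W x‖ ∂μ) atTop (𝓝 0) := by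
  set Φ : ℕ → (X →₁[μ] F) := fun n => (hf n).toL1 (f n) with hΦ
  have hdist : ∀ p q, dist (Φ p) (Φ q) = ∫ x, ‖f p x - f q x‖ ∂μ := by
    intro p q
    rw [dist_eq_norm, hΦ]
    simp only
    rw [← Integrable.toL1_sub _ _ (hf p) (hf q), L1.norm_of_fun_eq_integral_norm]
    rfl
  have hcau : CauchySeq Φ := by
    rw [Metric.cauchySeq_iff]
    intro ε hε
    obtain ⟨P, hP⟩ := (Metric.tendsto_atTop.1 hc) ε hε
    refine ⟨max P.1 P.2, fun a ha b hb => ?_⟩
    have h1 := hP (a, b) ⟨(le_max_left _ _).trans ha, (le_max_right _ _).trans hb⟩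
    rw [dist_zero_right, Real.norm_eq_abs] at h1
    rw [hdist]
    exact lt_of_abs_lt h1
  obtain ⟨L, hL⟩ := cauchySeq_tendsto_of_complete hcau
  refine ⟨L, L1.integrable_coeFn L, ?_⟩
  have h2 : Tendsto (fun n => dist (Φ n) L) atTop (𝓝 0) := tendsto_iff_dist_tendsto_zero.1 hL
  refine h2.congr (fun n => ?_)
  have h3 : L = (L1.integrable_coeFn L).toL1 L := (Integrable.toL1_coeFn L _).symm
  conv_lhs => rw [h3]
  rw [dist_eq_norm, hΦ]
  simp only
  rw [← Integrable.toL1_sub _ _ (hf n) (L1.integrable_coeFn L), L1.norm_of_fun_eq_integral_norm]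
  rfl

section oper

variable {N : Type*} [NormedAddCommGroup N] [InnerProductSpace ℂ N]

/-- Finitely many vectors control the operator norm through the quadratic form. -/
lemma exists_vectors (N : Type*) [NormedAddCommGroup N] [InnerProductSpace ℂ N]
    [FiniteDimensional ℂ N] : ∃ (n : ℕ) (v : Fin n × Fin n × Fin 4 → N), ∀ A : N →L[ℂ] N,
      ‖A‖ ≤ ∑ i, ‖(inner ℂ (v i) (A (v i)) : ℂ)‖ := by
  classical
  set b := stdOrthonormalBasis ℂ N with hb
  set n := Module.finrank ℂ N with hn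
  set c : Fin 4 → ℂ := ![1, -1, I, -I] with hc
  refine ⟨n, fun i => b i.1 + c i.2.2 • b i.2.1, fun A => ?_⟩
  have h1 : ‖A‖ ≤ ∑ j, ‖A (b j)‖ := by
    apply ContinuousLinearMap.opNorm_le_bound _ (by positivity)
    intro x
    have hx : A x = ∑ j, (inner ℂ (b j) x : ℂ) • A (b j) := by
      conv_lhs => rw [← b.sum_repr' x]
      rw [map_sum]
      simp only [map_smul]
    rw [hx, Finset.sum_mul]
    refine (norm_sum_le _ _).trans ?_
    gcongr with j _
    rw [norm_smul, mul_comm]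
    gcongr
    calc ‖(inner ℂ (b j) x : ℂ)‖ ≤ ‖b j‖ * ‖x‖ := norm_inner_le_norm _ _
      _ = ‖x‖ := by rw [b.norm_eq_one, one_mul]
  have h2 : ∀ j, ‖A (b j)‖ ≤ ∑ i, ‖(inner ℂ (b i) (A (b j)) : ℂ)‖ := by
    intro j
    conv_lhs => rw [← b.sum_repr' (A (b j))]
    refine (norm_sum_le _ _).trans ?_
    gcongr with i _
    rw [norm_smul, b.norm_eq_one, mul_one]
  have h3 : ∀ x y : N, ‖(inner ℂ x (A y) : ℂ)‖ ≤
      ∑ k : Fin 4, ‖(inner ℂ (x + c k • y) (A (x + c k • y)) : ℂ)‖ := by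
    intro x y
    have e := inner_map_polarization (A : N →ₗ[ℂ] N) x y
    simp only [ContinuousLinearMap.coe_coe] at e
    have hs : ∀ v : N, ‖(inner ℂ (A v) v : ℂ)‖ = ‖(inner ℂ v (A v) : ℂ)‖ := fun v =>
      norm_inner_symm _ _
    rw [norm_inner_symm, e, norm_div]
    have h4 : ‖(4:ℂ)‖ = 4 := by norm_num
    rw [h4, div_le_iff₀ (by norm_num)]
    have hsum : ∑ k : Fin 4, ‖(inner ℂ (x + c k • y) (A (x + c k • y)) : ℂ)‖ =
        ‖(inner ℂ (A (x + y)) (x + y) : ℂ)‖ + ‖(inner ℂ (A (x - y)) (x - y) : ℂ)‖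
        + ‖(inner ℂ (A (x + I • y)) (x + I • y) : ℂ)‖
        + ‖(inner ℂ (A (x - I • y)) (x - I • y) : ℂ)‖ := by
      rw [Fin.sum_univ_four]
      simp only [hs, hc, Matrix.cons_val_zero, Matrix.cons_val_one, Matrix.cons_val, one_smul,
        neg_smul, ← sub_eq_add_neg]
    rw [hsum]
    have hn1 : ∀ a : ℂ, ‖I * a‖ = ‖a‖ := fun a => by rw [norm_mul, norm_I, one_mul]
    set a1 := (inner ℂ (A (x + y)) (x + y) : ℂ)
    set a2 := (inner ℂ (A (x - y)) (x - y) : ℂ)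
    set a3 := (inner ℂ (A (x + I • y)) (x + I • y) : ℂ)
    set a4 := (inner ℂ (A (x - I • y)) (x - I • y) : ℂ)
    have t1 : ‖a1 - a2 + I * a3 - I * a4‖ ≤ ‖a1‖ + ‖a2‖ + ‖a3‖ + ‖a4‖ := by
      refine (norm_sub_le _ _).trans ?_
      rw [hn1]
      gcongr
      refine (norm_add_le _ _).trans ?_
      rw [hn1]
      gcongr
      exact norm_sub_le _ _
    have := norm_nonneg a1
    have := norm_nonneg a2
    have := norm_nonneg a3
    have := norm_nonneg a4
    linarith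
  calc ‖A‖ ≤ ∑ j, ‖A (b j)‖ := h1
    _ ≤ ∑ j, ∑ i, ‖(inner ℂ (b i) (A (b j)) : ℂ)‖ := by gcongr with j _; exact h2 j
    _ ≤ ∑ j, ∑ i, ∑ k : Fin 4,
        ‖(inner ℂ (b i + c k • b j) (A (b i + c k • b j)) : ℂ)‖ := by
        gcongr with j _ i _; exact h3 _ _
    _ = ∑ i : Fin n × Fin n × Fin 4, ‖(inner ℂ (b i.1 + c i.2.2 • b i.2.1)
        (A (b i.1 + c i.2.2 • b i.2.1)) : ℂ)‖ := by
        rw [Finset.sum_comm, Fintype.sum_prod_type]
        simp only [Fintype.sum_prod_type]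

variable [CompleteSpace N]

/-- real part of the Herglotz function -/
noncomputable def AA (G : N →L[ℂ] N) : N →L[ℂ] N := UU G + (UU G).adjoint - 1

lemma AA_inner (G : N →L[ℂ] N) (x : N) :
    (inner ℂ x (AA G x) : ℂ) = ((2 * (inner ℂ x (UU G x) : ℂ).re - ‖x‖ ^ 2 : ℝ) : ℂ) := by
  have h1 : AA G x = UU G x + (UU G).adjoint x - x := rfl
  rw [h1, inner_sub_right, inner_add_right, ContinuousLinearMap.adjoint_inner_right,
    inner_self_eq_norm_sq_to_K]
  have h2 : (inner ℂ (UU G x) x : ℂ) = starRingEnd ℂ (inner ℂ x (UU G x)) :=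
    (inner_conj_symm _ _).symm
  rw [h2, Complex.add_conj]
  push_cast
  rfl

lemma AA_nonneg {G : N →L[ℂ] N} (hG : ‖G‖ < 1) (x : N) :
    0 ≤ 2 * (inner ℂ x (UU G x) : ℂ).re - ‖x‖ ^ 2 := by
  have := inner_UU_ge hG x
  linarith

variable {g : ℂ → (N →L[ℂ] N)}

lemma Good.A_cont (h : Good g) : ContinuousOn (fun z => AA (g z)) (ball 0 1) := by
  unfold AA
  apply ContinuousOn.sub _ continuousOn_const
  apply h.U_diff.continuousOn.add
  exact (ContinuousLinearMap.adjoint (𝕜 := ℂ) (E := N) (F := N)).continuous.comp_continuousOn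
    h.U_diff.continuousOn

lemma Good.A_cont' (h : Good g) {r : ℝ} (hr0 : 0 ≤ r) (hr : r < 1) :
    Continuous (fun ζ : 𝕋 => AA (g ((r : ℂ) * ζ))) :=
  continuousOn_iff_continuous_restrict.1 (cont_dil h.A_cont hr0 hr)

variable [FiniteDimensional ℂ N]

lemma Good.A_cauchy (h : Good g) {r : ℕ → ℝ} (hr0 : ∀ n, 0 ≤ r n)
    (hr1 : ∀ n, r n < 1) (hr : Tendsto r atTop (𝓝 1)) :
    Tendsto (fun p : ℕ × ℕ => ∫ ζ : 𝕋, ‖AA (g ((r p.1 : ℂ) * ζ)) - AA (g ((r p.2 : ℂ) * ζ))‖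
      ∂arcMeasure) atTop (𝓝 0) := by
  obtain ⟨n, v, hv⟩ := exists_vectors N
  have hlim : Tendsto (fun p : ℕ × ℕ => ∑ i, (2 * Real.pi) • (2 * Real.circleAverage
      (fun ζ => |(inner ℂ (v i) (UU (g ((r p.1 : ℂ) * ζ)) (v i)) : ℂ).re
        - (inner ℂ (v i) (UU (g ((r p.2 : ℂ) * ζ)) (v i)) : ℂ).re|) 0 1)) atTop (𝓝 0) := by
    rw [show (0:ℝ) = ∑ i : Fin n × Fin n × Fin 4, (2 * Real.pi) • (2 * (0:ℝ)) by simp]
    apply tendsto_finset_sum
    intro i _
    exact ((h.pt_cauchy (v i) hr0 hr1 hr).const_mul 2).const_smul (2 * Real.pi)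
  refine squeeze_zero (fun p => integral_nonneg (fun _ => norm_nonneg _)) (fun p => ?_) hlim
  have hAc : ∀ m, Continuous (fun ζ : 𝕋 => AA (g ((r m : ℂ) * ζ))) := fun m =>
    h.A_cont' (hr0 m) (hr1 m)
  have hci : ∀ i, Continuous (fun ζ : 𝕋 => ‖(inner ℂ (v i)
      ((AA (g ((r p.1 : ℂ) * ζ)) - AA (g ((r p.2 : ℂ) * ζ))) (v i)) : ℂ)‖) := by
    intro i
    have h1 : Continuous (fun ζ : 𝕋 => (AA (g ((r p.1 : ℂ) * ζ)) - AA (g ((r p.2 : ℂ) * ζ)))
      (v i)) := ((hAc p.1).sub (hAc p.2)).clm_apply continuous_const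
    exact (continuous_const.inner h1).norm
  calc ∫ ζ : 𝕋, ‖AA (g ((r p.1 : ℂ) * ζ)) - AA (g ((r p.2 : ℂ) * ζ))‖ ∂arcMeasure
      ≤ ∫ ζ : 𝕋, ∑ i, ‖(inner ℂ (v i)
          ((AA (g ((r p.1 : ℂ) * ζ)) - AA (g ((r p.2 : ℂ) * ζ))) (v i)) : ℂ)‖ ∂arcMeasure := by
        apply integral_mono
        · exact arc_integrable ((hAc p.1).sub (hAc p.2)).norm
        · exact arc_integrable (continuous_finset_sum _ (fun i _ => hci i))
        · intro ζ
          exact hv _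
    _ = ∑ i, ∫ ζ : 𝕋, ‖(inner ℂ (v i)
          ((AA (g ((r p.1 : ℂ) * ζ)) - AA (g ((r p.2 : ℂ) * ζ))) (v i)) : ℂ)‖ ∂arcMeasure :=
        integral_finset_sum _ (fun i _ => arc_integrable (hci i))
    _ = _ := by
        apply Finset.sum_congr rfl
        intro i _
        have hu := diff_inner h.U_diff (v i)
        have cu : ContinuousOn (fun z => (inner ℂ (v i) (UU (g z) (v i)) : ℂ).re) (ball 0 1) :=
          continuous_re.comp_continuousOn hu.continuousOn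
        have cabs : ContinuousOn (fun ζ : ℂ => |(inner ℂ (v i) (UU (g ((r p.1 : ℂ) * ζ)) (v i)) : ℂ).re
          - (inner ℂ (v i) (UU (g ((r p.2 : ℂ) * ζ)) (v i)) : ℂ).re|) (sphere 0 1) :=
          ((cont_dil cu (hr0 _) (hr1 _)).sub (cont_dil cu (hr0 _) (hr1 _))).abs
        have e1 : ∀ ζ : 𝕋, ‖(inner ℂ (v i)
            ((AA (g ((r p.1 : ℂ) * ζ)) - AA (g ((r p.2 : ℂ) * ζ))) (v i)) : ℂ)‖
            = 2 * |(inner ℂ (v i) (UU (g ((r p.1 : ℂ) * ζ)) (v i)) : ℂ).re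
          - (inner ℂ (v i) (UU (g ((r p.2 : ℂ) * ζ)) (v i)) : ℂ).re| := by
          intro ζ
          rw [ContinuousLinearMap.sub_apply, inner_sub_right, AA_inner, AA_inner,
            ← Complex.ofReal_sub, Complex.norm_real, Real.norm_eq_abs]
          rw [show (2:ℝ) = |2| by norm_num, ← abs_mul]
          congr 1
          norm_num
          ring
        simp_rw [e1]
        rw [integral_arc (f := fun ζ : ℂ =>
          2 * |(inner ℂ (v i) (UU (g ((r p.1 : ℂ) * ζ)) (v i)) : ℂ).re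
          - (inner ℂ (v i) (UU (g ((r p.2 : ℂ) * ζ)) (v i)) : ℂ).re|) (cabs.const_smul (2:ℝ))]
        congr 1
        have := Real.circleAverage_fun_smul (f := fun ζ : ℂ =>
          |(inner ℂ (v i) (UU (g ((r p.1 : ℂ) * ζ)) (v i)) : ℂ).re
          - (inner ℂ (v i) (UU (g ((r p.2 : ℂ) * ζ)) (v i)) : ℂ).re|) (c := 0) (R := 1)
          (a := (2:ℝ))
        simpa [smul_eq_mul] using this

end oper

end Pool.Agent.Work.MP_3b4bb3_an
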