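import Pool.Agent.Work.MP_3b4bb3_an.Rep

set_option autoImplicit false

open MeasureTheory Filter Topology Complex Metric

namespace Pool.Agent.Work.MP_3b4bb3_an

section L1

variable {E : Type*} [NormedAddCommGroup E] [NormedSpace ℂ E] [CompleteSpace E]
  {X : Type*} {m : MeasurableSpace X} {μ : Measure X}

omit [CompleteSpace E] in
lemma tendsto_integral_smul {φ : X → ℂ} (hφ : AEStronglyMeasurable φ μ) {C : ℝ}
    (hC : ∀ x, ‖φ x‖ ≤ C) {f : ℕ → X → E} {W : X → E} (hf : ∀ n, Integrable (f n) μ)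
    (hW : Integrable W μ) (hlim : Tendsto (fun n => ∫ x, ‖f n x - W x‖ ∂μ) atTop (𝓝 0)) :
    Tendsto (fun n => ∫ x, φ x • f n x ∂μ) atTop (𝓝 (∫ x, φ x • W x ∂μ)) := by
  have hbd : ∃ C, ∀ x, ‖φ x‖ ≤ C := ⟨C, hC⟩
  have i1 : ∀ n, Integrable (fun x => φ x • f n x) μ := fun n =>
    (hf n).bdd_smul C hφ (Eventually.of_forall hC)
  have i2 : Integrable (fun x => φ x • W x) μ := hW.bdd_smul C hφ (Eventually.of_forall hC)
  rw [tendsto_iff_norm_sub_tendsto_zero]
  have h0 : Tendsto (fun n => C * ∫ x, ‖f n x - W x‖ ∂μ) atTop (𝓝 0) := by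
    simpa using hlim.const_mul C
  refine squeeze_zero (fun n => norm_nonneg _) (fun n => ?_) h0
  rw [← integral_sub (i1 n) i2]
  refine (norm_integral_le_integral_norm _).trans ?_
  rw [← integral_const_mul]
  apply integral_mono ((i1 n).sub i2).norm (((hf n).sub hW).norm.const_mul C)
  intro x
  simp only [Pi.sub_apply]
  rw [← smul_sub, norm_smul]
  gcongr
  exact hC x

/-- integrals of bounded functions against a measure with density -/
lemma integral_withDensityV {φ : X → ℂ} (hφ : StronglyMeasurable φ) {C : ℝ}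
    (hC : ∀ x, ‖φ x‖ ≤ C) {W : X → E} (hW : Integrable W μ) :
    VectorMeasure.integral (μ.withDensityᵥ W) φ (ContinuousLinearMap.lsmul ℝ ℂ)
      = ∫ x, φ x • W x ∂μ := by
  have hfin : IsFiniteMeasure (μ.withDensityᵥ W).variation := by
    rw [Measure.variation_withDensityᵥ hW]
    exact ⟨by simpa using! hW.2⟩
  have hS : ∀ s : SimpleFunc X ℂ,
      VectorMeasure.integral (μ.withDensityᵥ W) s (ContinuousLinearMap.lsmul ℝ ℂ)
      = ∫ x, s x • W x ∂μ := by
    intro s
    have hint : ∀ t : SimpleFunc X ℂ, Integrable (fun x => t x • W x) μ := by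
      intro t
      obtain ⟨K, hK⟩ := t.exists_forall_norm_le
      exact hW.bdd_smul K t.stronglyMeasurable.aestronglyMeasurable
        (Eventually.of_forall hK)
    induction s using SimpleFunc.induction with
    | const c hs =>
      rename_i A
      have h1 : (⇑((SimpleFunc.const X c).piecewise A hs (SimpleFunc.const X 0)))
          = A.indicator (fun _ => c) := by
        funext x
        by_cases hx : x ∈ A <;> simp [hx]
      rw [h1, VectorMeasure.integral_indicator_const c hs]
      have h2 : (fun x => A.indicator (fun _ => c) x • W x) =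
          A.indicator (fun x => c • W x) := by
        funext x
        by_cases hx : x ∈ A <;> simp [hx]
      rw [h2, MeasureTheory.integral_indicator hs, integral_smul, withDensityᵥ_apply hW hs]
      rfl
    | add _ h1 h2 =>
      rename_i f g _
      have e1 : (⇑(f + g) : X → ℂ) = fun x => f x + g x := rfl
      rw [e1]
      have if1 : (μ.withDensityᵥ W).Integrable f := SimpleFunc.integrable_of_isFiniteMeasure f
      have ig1 : (μ.withDensityᵥ W).Integrable g := SimpleFunc.integrable_of_isFiniteMeasure g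
      rw [VectorMeasure.integral_fun_add if1 ig1, h1, h2, ← integral_add (hint f) (hint g)]
      simp only [add_smul]
  have hC' : ∀ x, ‖φ x‖ ≤ max C 0 := fun x => (hC x).trans (le_max_left _ _)
  set s : ℕ → SimpleFunc X ℂ := fun n => hφ.approxBounded (max C 0) n with hs
  have hsn : ∀ n x, ‖s n x‖ ≤ max C 0 := fun n x =>
    hφ.norm_approxBounded_le (le_max_right _ _) n x
  have hst : ∀ x, Tendsto (fun n => s n x) atTop (𝓝 (φ x)) := fun x =>
    hφ.tendsto_approxBounded_of_norm_le (hC' x)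
  have t1 : Tendsto (fun n => VectorMeasure.integral (μ.withDensityᵥ W) (s n)
      (ContinuousLinearMap.lsmul ℝ ℂ)) atTop
      (𝓝 (VectorMeasure.integral (μ.withDensityᵥ W) φ (ContinuousLinearMap.lsmul ℝ ℂ))) := by
    apply VectorMeasure.tendsto_integral_of_dominated_convergence (fun _ => max C 0)
    · intro n
      exact (s n).stronglyMeasurable.aestronglyMeasurable
    · exact integrable_const _
    · intro n
      exact Eventually.of_forall (hsn n)
    · exact Eventually.of_forall hst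
  have t2 : Tendsto (fun n => ∫ x, s n x • W x ∂μ) atTop (𝓝 (∫ x, φ x • W x ∂μ)) := by
    apply tendsto_integral_of_dominated_convergence (fun x => max C 0 * ‖W x‖)
    · intro n
      exact (s n).stronglyMeasurable.aestronglyMeasurable.smul hW.aestronglyMeasurable
    · exact hW.norm.const_mul _
    · intro n
      refine Eventually.of_forall (fun x => ?_)
      rw [norm_smul]
      gcongr
      exact hsn n x
    · exact Eventually.of_forall (fun x => (hst x).smul_const _)
  simp_rw [hS] at t1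
  exact tendsto_nhds_unique t1 t2

end L1

section oper

variable {N : Type*} [NormedAddCommGroup N] [InnerProductSpace ℂ N]

/-- quadratic form as a linear functional of the operator -/
noncomputable def qL (x : N) : (N →L[ℂ] N) →L[ℂ] ℂ :=
  (innerSL ℂ x) ∘L (ContinuousLinearMap.apply ℂ N x)

lemma qL_apply (x : N) (A : N →L[ℂ] N) : qL x A = inner ℂ x (A x) := rfl

lemma pos_of_q {A : N →L[ℂ] N} (h : ∀ x, ∃ c : ℝ, 0 ≤ c ∧ qL x A = c) : A.IsPositive := by
  rw [ContinuousLinearMap.isPositive_iff_complex]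
  intro x
  obtain ⟨c, hc, h1⟩ := h x
  rw [qL_apply] at h1
  have h2 : (inner ℂ (A x) x : ℂ) = c := by
    rw [← inner_conj_symm, h1, Complex.conj_ofReal]
  rw [h2]
  simp [hc]

lemma q_closed : IsClosed {c : ℂ | ∃ t : ℝ, 0 ≤ t ∧ c = t} := by
  have : {c : ℂ | ∃ t : ℝ, 0 ≤ t ∧ c = t} = {c : ℂ | c.im = 0} ∩ {c : ℂ | 0 ≤ c.re} := by
    ext c
    constructor
    · rintro ⟨t, ht, rfl⟩
      exact ⟨Complex.ofReal_im t, by simpa using ht⟩
    · rintro ⟨h1, h2⟩
      exact ⟨c.re, h2, Complex.ext (by simp) (by simpa using h1)⟩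
  rw [this]
  exact (isClosed_eq Complex.continuous_im continuous_const).inter
    (isClosed_le continuous_const Complex.continuous_re)

variable [FiniteDimensional ℂ N] [CompleteSpace N] {g : ℂ → (N →L[ℂ] N)}

/-- a sequence of radii -/
noncomputable def rr (n : ℕ) : ℝ := 1 - 1 / ((n : ℝ) + 1)

lemma rr_nonneg (n : ℕ) : 0 ≤ rr n := by
  unfold rr
  have : 1 / ((n : ℝ) + 1) ≤ 1 := by
    rw [div_le_one (by positivity)]
    linarith [(Nat.cast_nonneg n : (0:ℝ) ≤ n)]
  linarith

lemma rr_lt (n : ℕ) : rr n < 1 := by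
  unfold rr
  have : 0 < 1 / ((n : ℝ) + 1) := by positivity
  linarith

lemma rr_tendsto : Tendsto rr atTop (𝓝 1) := by
  unfold rr
  simpa using (tendsto_one_div_add_atTop_nhds_zero_nat (𝕜 := ℝ)).const_sub 1

/-- Existence of an absolutely continuous representing measure. -/
theorem Good.exists_measure (h : Good g) : ∃ σ : VectorMeasure 𝕋 (N →L[ℂ] N),
    (∀ A : Set 𝕋, (σ A).IsPositive) ∧
    (∀ z ∈ ball (0:ℂ) 1, (2:ℂ) • UU (g z) - 1 = (2 * Real.pi)⁻¹ •
      VectorMeasure.integral σ (fun ζ : 𝕋 => ((ζ : ℂ) + z) / ((ζ : ℂ) - z))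
      (ContinuousLinearMap.lsmul ℝ ℂ)) ∧
    ∀ A : Set 𝕋, MeasurableSet A → arcMeasure A = 0 → σ A = 0 := by
  have hAc : ∀ n, Continuous (fun ζ : 𝕋 => AA (g ((rr n : ℂ) * ζ))) := fun n =>
    h.A_cont' (rr_nonneg n) (rr_lt n)
  have hAi : ∀ n, Integrable (fun ζ : 𝕋 => AA (g ((rr n : ℂ) * ζ))) arcMeasure := fun n =>
    arc_integrable (hAc n)
  obtain ⟨W, hW, hlim⟩ := exists_L1_limit hAi (h.A_cauchy rr_nonneg rr_lt rr_tendsto)
  refine ⟨arcMeasure.withDensityᵥ W, ?_, ?_, ?_⟩
  · intro A
    by_cases hA : MeasurableSet A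
    swap
    · rw [VectorMeasure.not_measurable _ hA]
      exact ContinuousLinearMap.isPositive_zero
    rw [withDensityᵥ_apply hW hA]
    apply pos_of_q
    intro x
    have t1 := tendsto_integral_smul (φ := A.indicator (fun _ => (1:ℂ))) (C := 1)
      ((stronglyMeasurable_const.indicator hA).aestronglyMeasurable) (by
        intro ζ
        by_cases hx : ζ ∈ A <;> simp [hx]) hAi hW hlim
    have e1 : ∀ f : 𝕋 → (N →L[ℂ] N), ∫ ζ, A.indicator (fun _ => (1:ℂ)) ζ • f ζ ∂arcMeasure
        = ∫ ζ in A, f ζ ∂arcMeasure := by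
      intro f
      have h2 : (fun ζ => A.indicator (fun _ => (1:ℂ)) ζ • f ζ) = A.indicator f := by
        funext ζ
        by_cases hx : ζ ∈ A <;> simp [hx]
      rw [h2, MeasureTheory.integral_indicator hA]
    simp_rw [e1] at t1
    have t2 := ((qL x).continuous.tendsto _).comp t1
    have t3 : ∀ n, (⇑(qL x) ∘ fun n => ∫ ζ in A, AA (g ((rr n : ℂ) * ζ)) ∂arcMeasure) n ∈
        {c : ℂ | ∃ t : ℝ, 0 ≤ t ∧ c = t} := by
      intro n
      refine ⟨∫ ζ : 𝕋 in A, (2 * (inner ℂ x (UU (g ((rr n : ℂ) * ζ)) x) : ℂ).re - ‖x‖ ^ 2)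
        ∂arcMeasure, ?_, ?_⟩
      · apply integral_nonneg
        intro ζ
        exact AA_nonneg (h.lt _ (mul_mem_ball (rr_nonneg n) (rr_lt n) ζ.2)) x
      · rw [Function.comp_apply, ← ContinuousLinearMap.integral_comp_comm _ (hAi n).integrableOn,
          ← integral_complex_ofReal]
        apply integral_congr_ae
        exact Eventually.of_forall (fun ζ => by
          simp only [qL_apply]
          exact AA_inner _ _)
    exact q_closed.mem_of_tendsto t2 (Eventually.of_forall t3)
  · intro z hz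
    have hkc := kz_cont hz
    have hkc' : Continuous (fun ζ : 𝕋 => kz z ζ) := continuousOn_iff_continuous_restrict.1 hkc
    have hkb : ∀ ζ : 𝕋, ‖kz z ζ‖ ≤ 2 / (1 - ‖z‖) := fun ζ => kz_norm_le hz ζ.2
    have e0 : (fun ζ : 𝕋 => ((ζ : ℂ) + z) / ((ζ : ℂ) - z)) = fun ζ : 𝕋 => kz z ζ := rfl
    rw [e0, integral_withDensityV hkc'.stronglyMeasurable hkb hW]
    have t1 := (tendsto_integral_smul hkc'.aestronglyMeasurable hkb hAi hW hlim).const_smul
      ((2 * Real.pi)⁻¹)
    have e1 : ∀ n, (2 * Real.pi)⁻¹ • ∫ ζ : 𝕋, kz z ζ • AA (g ((rr n : ℂ) * ζ)) ∂arcMeasure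
        = (2:ℂ) • UU (g ((rr n : ℂ) * z)) - 1 := by
      intro n
      rw [integral_arc (f := fun ζ : ℂ => kz z ζ • AA (g ((rr n : ℂ) * ζ)))
        (hkc.smul (cont_dil h.A_cont (rr_nonneg n) (rr_lt n))), h.rep_r hz (rr_nonneg n) (rr_lt n),
        smul_smul, inv_mul_cancel₀ (by positivity), one_smul]
    simp_rw [e1] at t1
    have t2 : Tendsto (fun n => (2:ℂ) • UU (g ((rr n : ℂ) * z)) - 1) atTop
        (𝓝 ((2:ℂ) • UU (g z) - 1)) := by
      apply Tendsto.sub_const
      apply Tendsto.const_smul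
      have hcz : ContinuousAt (fun z => UU (g z)) z :=
        (h.U_diff.differentiableAt (isOpen_ball.mem_nhds hz)).continuousAt
      have hr : Tendsto (fun n => (rr n : ℂ) * z) atTop (𝓝 z) := by
        have h1 : Tendsto (fun n => (rr n : ℂ)) atTop (𝓝 ((1:ℝ) : ℂ)) :=
          (Complex.continuous_ofReal.tendsto 1).comp rr_tendsto
        simpa using h1.mul_const z
      exact hcz.tendsto.comp hr
    exact tendsto_nhds_unique t2 t1
  · intro A hA h0
    rw [withDensityᵥ_apply hW hA, Measure.restrict_zero_set h0, integral_zero_measure]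

end oper

end Pool.Agent.Work.MP_3b4bb3_an
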