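import Pool.Agent.Work.MP_3b4bb3_an.Omega

set_option autoImplicit false

open MeasureTheory Filter Topology Complex Metric

namespace Pool.Agent.Work.MP_3b4bb3_an

/-- Parseval for absolutely convergent power series on the unit circle. -/
lemma parseval {c : ℕ → ℂ} (hc : Summable (fun n => ‖c n‖)) {g : ℂ → ℂ}
    (hg : ∀ ζ ∈ sphere (0:ℂ) 1, HasSum (fun n => c n * ζ ^ n) (g ζ)) :
    HasSum (fun n => ‖c n‖ ^ 2) (Real.circleAverage (fun ζ => ‖g ζ‖ ^ 2) 0 1) := by
  rw [hasSum_iff_tendsto_nat_of_nonneg (fun i => by positivity)]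
  set p : ℕ → Polynomial ℂ := fun N => ∑ n ∈ Finset.range N, Polynomial.monomial n (c n) with hp
  have hcoef : ∀ N i, (p N).coeff i = if i < N then c i else 0 := by
    intro N i
    simp only [hp, Polynomial.finsetSum_coeff, Polynomial.coeff_monomial]
    simp
  have heval : ∀ N ζ, (p N).eval ζ = ∑ n ∈ Finset.range N, c n * ζ ^ n := by
    intro N ζ
    simp [hp, Polynomial.eval_finsetSum, Polynomial.eval_monomial]
  have h1 : ∀ N, ∑ n ∈ Finset.range N, ‖c n‖ ^ 2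
      = Real.circleAverage (fun ζ => ‖(p N).eval ζ‖ ^ 2) 0 1 := by
    intro N
    rw [← Polynomial.sum_sq_norm_coeff_eq_circleAverage]
    symm
    apply Finset.sum_subset_zero_on_sdiff
    · intro i hi
      rw [Polynomial.mem_support_iff, hcoef] at hi
      simp only [ne_eq, ite_eq_right_iff, Classical.not_imp] at hi
      exact Finset.mem_range.2 hi.1
    · intro i hi
      rw [Finset.mem_sdiff, Finset.mem_range, Polynomial.notMem_support_iff, hcoef] at hi
      rw [if_pos hi.1] at hi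
      simp [hi.2]
    · intro i hi
      rw [Polynomial.mem_support_iff, hcoef] at hi
      simp only [ne_eq, ite_eq_right_iff, Classical.not_imp] at hi
      rw [hcoef, if_pos hi.1]
  simp_rw [h1]
  simp only [Real.circleAverage_def]
  apply Tendsto.const_smul
  apply intervalIntegral.tendsto_integral_filter_of_dominated_convergence
    (fun _ => (∑' n, ‖c n‖) ^ 2)
  · filter_upwards with N
    apply Continuous.aestronglyMeasurable
    have : Continuous (fun ζ : ℂ => ‖(p N).eval ζ‖ ^ 2) := by fun_prop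
    exact this.comp (continuous_circleMap 0 1)
  · filter_upwards with N
    filter_upwards with θ _
    have hz : ‖circleMap 0 1 θ‖ = 1 := by simp [circleMap]
    rw [Real.norm_eq_abs, abs_of_nonneg (by positivity), heval]
    have : ‖∑ n ∈ Finset.range N, c n * circleMap 0 1 θ ^ n‖ ≤ ∑' n, ‖c n‖ := by
      refine (norm_sum_le _ _).trans ?_
      simp only [norm_mul, norm_pow, hz, one_pow, mul_one]
      exact hc.sum_le_tsum _ (fun i _ => norm_nonneg _)
    gcongr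
  · exact intervalIntegrable_const
  · filter_upwards with θ _
    have hz : circleMap 0 1 θ ∈ sphere (0:ℂ) 1 := circleMap_mem_sphere 0 zero_le_one θ
    have h2 := (hg _ hz).tendsto_sum_nat
    simp_rw [← heval] at h2
    exact (h2.norm).pow 2

/-- Taylor coefficients at the origin -/
noncomputable def tc (k : ℂ → ℂ) (n : ℕ) : ℂ := (n.factorial : ℂ)⁻¹ * iteratedDeriv n k 0

lemma tc_hasSum {k : ℂ → ℂ} (hk : DifferentiableOn ℂ k (ball 0 1)) {z : ℂ}
    (hz : z ∈ ball (0:ℂ) 1) : HasSum (fun n => tc k n * z ^ n) (k z) := by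
  have h := Complex.hasSum_taylorSeries_on_ball hk hz
  have e : (fun n => tc k n * z ^ n) =
      fun n : ℕ => ((n.factorial : ℂ)⁻¹ : ℂ) • (z - 0) ^ n • iteratedDeriv n k 0 := by
    funext n
    simp only [tc, smul_eq_mul, sub_zero]
    ring
  rw [e]
  exact h

lemma mul_mem_ball {r : ℝ} (hr0 : 0 ≤ r) (hr : r < 1) {ζ : ℂ} (hζ : ζ ∈ sphere (0:ℂ) 1) :
    (r : ℂ) * ζ ∈ ball (0:ℂ) 1 := by
  rw [mem_ball_zero_iff, norm_mul, Complex.norm_real, Real.norm_eq_abs, abs_of_nonneg hr0]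
  have : ‖ζ‖ = 1 := by simpa using hζ
  rw [this, mul_one]
  exact hr

lemma tc_summable {k : ℂ → ℂ} (hk : DifferentiableOn ℂ k (ball 0 1)) {r : ℝ} (hr0 : 0 ≤ r)
    (hr : r < 1) : Summable (fun n => ‖tc k n * (r : ℂ) ^ n‖) := by
  have hz : (r : ℂ) ∈ ball (0:ℂ) 1 := by
    rw [mem_ball_zero_iff, Complex.norm_real, Real.norm_eq_abs, abs_of_nonneg hr0]
    exact hr
  exact (tc_hasSum hk hz).summable.norm

lemma tc_parseval {k : ℂ → ℂ} (hk : DifferentiableOn ℂ k (ball 0 1)) {r : ℝ} (hr0 : 0 ≤ r)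
    (hr : r < 1) : HasSum (fun n => ‖tc k n‖ ^ 2 * (r ^ n) ^ 2)
      (Real.circleAverage (fun ζ => ‖k ((r : ℂ) * ζ)‖ ^ 2) 0 1) := by
  have := parseval (tc_summable hk hr0 hr) (g := fun ζ => k ((r : ℂ) * ζ)) (fun ζ hζ => by
    have := tc_hasSum hk (mul_mem_ball hr0 hr hζ)
    simpa [mul_pow, mul_assoc] using this)
  convert this using 2 with n
  rw [norm_mul, norm_pow, Complex.norm_real, Real.norm_eq_abs, abs_of_nonneg hr0]
  ring

lemma tc_parseval_sub {k : ℂ → ℂ} (hk : DifferentiableOn ℂ k (ball 0 1)) {r s : ℝ} (hr0 : 0 ≤ r)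
    (hr : r < 1) (hs0 : 0 ≤ s) (hs : s < 1) :
    HasSum (fun n => ‖tc k n‖ ^ 2 * (r ^ n - s ^ n) ^ 2)
      (Real.circleAverage (fun ζ => ‖k ((r : ℂ) * ζ) - k ((s : ℂ) * ζ)‖ ^ 2) 0 1) := by
  have h1 := tc_summable hk hr0 hr
  have h2 := tc_summable hk hs0 hs
  have h3 : Summable (fun n => ‖tc k n * ((r : ℂ) ^ n - (s : ℂ) ^ n)‖) := by
    apply Summable.of_nonneg_of_le (fun n => norm_nonneg _) _ (h1.add h2)
    intro n
    rw [mul_sub]
    exact norm_sub_le _ _
  have := parseval h3 (g := fun ζ => k ((r : ℂ) * ζ) - k ((s : ℂ) * ζ)) (fun ζ hζ => by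
    have e1 := tc_hasSum hk (mul_mem_ball hr0 hr hζ)
    have e2 := tc_hasSum hk (mul_mem_ball hs0 hs hζ)
    have e3 := e1.sub e2
    have e : (fun n => tc k n * ((r : ℂ) ^ n - (s : ℂ) ^ n) * ζ ^ n) =
        fun n => tc k n * ((r : ℂ) * ζ) ^ n - tc k n * ((s : ℂ) * ζ) ^ n := by
      funext n
      rw [mul_pow, mul_pow]
      ring
    rw [e]
    exact e3)
  convert this using 2 with n
  rw [norm_mul, mul_pow]
  congr 1
  rw [← Complex.ofReal_pow, ← Complex.ofReal_pow, ← Complex.ofReal_sub, Complex.norm_real,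
    Real.norm_eq_abs, sq_abs]

lemma cont_dil {F : Type*} [NormedAddCommGroup F] {f : ℂ → F}
    (hf : ContinuousOn f (ball 0 1)) {r : ℝ} (hr0 : 0 ≤ r) (hr : r < 1) :
    ContinuousOn (fun ζ => f ((r : ℂ) * ζ)) (sphere 0 1) :=
  hf.comp (by fun_prop) (fun _ hζ => mul_mem_ball hr0 hr hζ)

lemma cInt' {F : Type*} [NormedAddCommGroup F] {f : ℂ → F}
    (hf : ContinuousOn f (sphere 0 1)) : CircleIntegrable f 0 1 :=
  ContinuousOn.circleIntegrable zero_le_one hf

lemma tc_sq_summable {k : ℂ → ℂ} (hk : DifferentiableOn ℂ k (ball 0 1)) {C : ℝ}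
    (hC : ∀ z ∈ ball (0:ℂ) 1, ‖k z‖ ≤ C) : Summable (fun n => ‖tc k n‖ ^ 2) := by
  apply summable_of_sum_range_le (c := C ^ 2) (fun n => by positivity)
  intro N
  have h1 : ∀ r : ℝ, 0 ≤ r → r < 1 →
      ∑ n ∈ Finset.range N, ‖tc k n‖ ^ 2 * (r ^ n) ^ 2 ≤ C ^ 2 := by
    intro r hr0 hr
    have hp := tc_parseval hk hr0 hr
    refine (sum_le_hasSum _ (fun n _ => by positivity) hp).trans ?_
    rw [← Real.circleAverage_const (C ^ 2) (0:ℂ) 1]
    apply Real.circleAverage_mono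
    · exact cInt' ((cont_dil hk.continuousOn hr0 hr).norm.pow 2)
    · exact cInt' continuousOn_const
    · intro ζ hζ
      rw [abs_one] at hζ
      have := hC _ (mul_mem_ball hr0 hr hζ)
      gcongr
  have hcont : Continuous (fun r : ℝ => ∑ n ∈ Finset.range N, ‖tc k n‖ ^ 2 * (r ^ n) ^ 2) := by
    fun_prop
  have ht : Tendsto (fun r : ℝ => ∑ n ∈ Finset.range N, ‖tc k n‖ ^ 2 * (r ^ n) ^ 2) (𝓝[<] 1)
      (𝓝 (∑ n ∈ Finset.range N, ‖tc k n‖ ^ 2)) := by
    have := hcont.tendsto 1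
    simp only [one_pow, mul_one] at this
    exact this.mono_left nhdsWithin_le_nhds
  apply le_of_tendsto ht
  have : Set.Ico (0:ℝ) 1 ∈ 𝓝[<] (1:ℝ) := Ico_mem_nhdsLT zero_lt_one
  filter_upwards [this] with r hr
  exact h1 r hr.1 hr.2

lemma avg_abs_le {f : ℂ → ℝ} (hf : ContinuousOn f (sphere 0 1)) {s : ℝ} (hs : 0 < s) :
    Real.circleAverage f 0 1 ≤ s / 2 + (2 * s)⁻¹ * Real.circleAverage (fun z => f z ^ 2) 0 1 := by
  have c4 : ContinuousOn (fun z => s / 2 + (2 * s)⁻¹ * f z ^ 2) (sphere 0 1) :=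
    continuousOn_const.add ((hf.pow 2).const_smul (2 * s)⁻¹)
  have c5 : ContinuousOn (fun z => (2 * s)⁻¹ * f z ^ 2) (sphere 0 1) :=
    ((hf.pow 2).const_smul (2 * s)⁻¹)
  calc Real.circleAverage f 0 1
      ≤ Real.circleAverage (fun z => s / 2 + (2 * s)⁻¹ * f z ^ 2) 0 1 := by
        apply Real.circleAverage_mono (cInt' hf) (cInt' c4)
        intro z hz
        have h2 : s / 2 + (2 * s)⁻¹ * f z ^ 2 - f z = (2 * s)⁻¹ * (f z - s) ^ 2 := by
          field_simp
          ring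
        have h3 : 0 ≤ (2 * s)⁻¹ * (f z - s) ^ 2 := by positivity
        linarith
    _ = s / 2 + (2 * s)⁻¹ * Real.circleAverage (fun z => f z ^ 2) 0 1 := by
        rw [Real.circleAverage_fun_add (cInt' continuousOn_const) (cInt' c5),
          Real.circleAverage_const]
        congr 1
        have := Real.circleAverage_fun_smul (f := fun z => f z ^ 2) (c := 0) (R := 1)
          (a := (2 * s)⁻¹)
        simpa [smul_eq_mul] using this

/-- Radial dilations of a bounded holomorphic function form a Cauchy sequence in `L¹`. -/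
lemma bdd_cauchy {k : ℂ → ℂ} (hk : DifferentiableOn ℂ k (ball 0 1)) {C : ℝ}
    (hC : ∀ z ∈ ball (0:ℂ) 1, ‖k z‖ ≤ C) {r : ℕ → ℝ} (hr0 : ∀ n, 0 ≤ r n) (hr1 : ∀ n, r n < 1)
    (hr : Tendsto r atTop (𝓝 1)) :
    Tendsto (fun p : ℕ × ℕ => Real.circleAverage
      (fun ζ => ‖k ((r p.1 : ℂ) * ζ) - k ((r p.2 : ℂ) * ζ)‖) 0 1) atTop (𝓝 0) := by
  have hsum := tc_sq_summable hk hC
  have h2 : Tendsto (fun p : ℕ × ℕ => ∑' n, ‖tc k n‖ ^ 2 * (r p.1 ^ n - r p.2 ^ n) ^ 2) atTop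
      (𝓝 (∑' n, ‖tc k n‖ ^ 2 * 0)) := by
    apply tendsto_tsum_of_dominated_convergence (bound := fun n => ‖tc k n‖ ^ 2) hsum
    · intro n
      apply Tendsto.const_mul
      have e1 : Tendsto (fun p : ℕ × ℕ => r p.1) atTop (𝓝 1) := by
        rw [← prod_atTop_atTop_eq]
        exact hr.comp tendsto_fst
      have e2 : Tendsto (fun p : ℕ × ℕ => r p.2) atTop (𝓝 1) := by
        rw [← prod_atTop_atTop_eq]
        exact hr.comp tendsto_snd
      have := ((e1.pow n).sub (e2.pow n)).pow 2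
      simpa using this
    · filter_upwards with p n
      rw [Real.norm_eq_abs, abs_of_nonneg (by positivity)]
      apply mul_le_of_le_one_right (by positivity)
      have a1 := pow_le_one₀ (n := n) (hr0 p.1) (hr1 p.1).le
      have a2 := pow_le_one₀ (n := n) (hr0 p.2) (hr1 p.2).le
      have a3 := pow_nonneg (hr0 p.1) n
      have a4 := pow_nonneg (hr0 p.2) n
      rw [sq_le_one_iff_abs_le_one, abs_le]
      constructor <;> linarith
  simp only [mul_zero, tsum_zero] at h2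
  rw [Metric.tendsto_atTop]
  intro ε hε
  have h3 := (Metric.tendsto_atTop.1 h2) (ε ^ 2 / 2) (by positivity)
  obtain ⟨P, hP⟩ := h3
  refine ⟨P, fun p hp => ?_⟩
  have h4 := hP p hp
  rw [(tc_parseval_sub hk (hr0 p.1) (hr1 p.1) (hr0 p.2) (hr1 p.2)).tsum_eq, dist_zero_right,
    Real.norm_eq_abs] at h4
  have hcont : ContinuousOn (fun ζ => ‖k ((r p.1 : ℂ) * ζ) - k ((r p.2 : ℂ) * ζ)‖)
      (sphere 0 1) := ((cont_dil hk.continuousOn (hr0 _) (hr1 _)).sub
        (cont_dil hk.continuousOn (hr0 _) (hr1 _))).norm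
  have h5 := avg_abs_le hcont hε
  have h6 : (0:ℝ) ≤ Real.circleAverage
      (fun ζ => ‖k ((r p.1 : ℂ) * ζ) - k ((r p.2 : ℂ) * ζ)‖) 0 1 :=
    Real.circleAverage_nonneg_of_nonneg (fun _ _ => norm_nonneg _)
  rw [dist_zero_right, Real.norm_eq_abs, abs_of_nonneg h6]
  have h7 := lt_of_abs_lt h4
  have h8 : (2 * ε)⁻¹ * Real.circleAverage
      (fun z => ‖k ((r p.1 : ℂ) * z) - k ((r p.2 : ℂ) * z)‖ ^ 2) 0 1
      ≤ (2 * ε)⁻¹ * (ε ^ 2 / 2) := by gcongr
  have h9 : (2 * ε)⁻¹ * (ε ^ 2 / 2) = ε / 4 := by field_simp; ring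
  linarith

end Pool.Agent.Work.MP_3b4bb3_an
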