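import Pool.Agent.Work.MP_3b4bb3_an.Uniq2

set_option autoImplicit false

open MeasureTheory Filter Topology Complex Metric

namespace Pool.Agent.Work.MP_3b4bb3_an

universe u v

variable {M : Type u} {N : Type v}
    [NormedAddCommGroup M] [InnerProductSpace ℂ M] [NormedAddCommGroup N] [InnerProductSpace ℂ N]

/-- rank one operator -/
noncomputable def JJ (f : M) (e : N) : M →L[ℂ] N := (innerSL ℂ f).smulRight e

lemma JJ_apply (f : M) (e : N) (v : M) : JJ f e v = (inner ℂ f v : ℂ) • e := rfl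

lemma JJ_norm {f : M} {e : N} (hf : ‖f‖ = 1) (he : ‖e‖ = 1) : ‖JJ f e‖ ≤ 1 := by
  apply ContinuousLinearMap.opNorm_le_bound _ zero_le_one
  intro v
  rw [JJ_apply, norm_smul, he, mul_one, one_mul]
  calc ‖(inner ℂ f v : ℂ)‖ ≤ ‖f‖ * ‖v‖ := norm_inner_le_norm _ _
    _ = ‖v‖ := by rw [hf, one_mul]

/-- the counterexample -/
noncomputable def chiJ (f : M) (e : N) (z : ℂ) : M →L[ℂ] N := chi0 z • JJ f e

lemma chiJ_norm {f : M} {e : N} (hf : ‖f‖ = 1) (he : ‖e‖ = 1) (z : ℂ) :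
    ‖chiJ f e z‖ ≤ ‖chi0 z‖ := by
  rw [chiJ, norm_smul]
  calc ‖chi0 z‖ * ‖JJ f e‖ ≤ ‖chi0 z‖ * 1 := by gcongr; exact JJ_norm hf he
    _ = ‖chi0 z‖ := mul_one _

lemma chiJ_diff (f : M) (e : N) : DifferentiableOn ℂ (chiJ f e) (ball 0 1) :=
  chi0_differentiableOn.smul_const _

lemma chi0_zero : chi0 0 = 0 := by simp [chi0]

lemma chiJ_schur {f : M} {e : N} (hf : ‖f‖ = 1) (he : ‖e‖ = 1) : chiJ f e ∈ Schur0 M N := by
  refine ⟨⟨chiJ_diff f e, fun z hz => ?_⟩, ?_⟩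
  · have h1 : ‖z‖ < 1 := by simpa using hz
    exact ((chiJ_norm hf he z).trans (chi0_norm_le hz)).trans h1.le
  · rw [chiJ, chi0_zero, zero_smul]

variable [CompleteSpace N]

lemma good_of_schur {f : M} {e : N} (hf : ‖f‖ = 1) (he : ‖e‖ = 1) {ε : ℂ → (N →L[ℂ] M)}
    (hε : ε ∈ Schur N M) : Good (fun z => (chiJ f e z) ∘L (ε z)) := by
  have hle : ∀ z ∈ ball (0:ℂ) 1, ‖(chiJ f e z) ∘L (ε z)‖ ≤ ‖chi0 z‖ := by
    intro z hz
    calc ‖(chiJ f e z) ∘L (ε z)‖ ≤ ‖chiJ f e z‖ * ‖ε z‖ :=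
          ContinuousLinearMap.opNorm_comp_le _ _
      _ ≤ ‖chi0 z‖ * 1 := by
          gcongr
          · exact chiJ_norm hf he z
          · exact hε.2 z hz
      _ = ‖chi0 z‖ := mul_one _
  refine ⟨?_, ?_, ?_, ?_⟩
  · intro z hz
    exact (chiJ_diff f e z hz).clm_comp (hε.1 z hz)
  · rw [chiJ, chi0_zero, zero_smul, ContinuousLinearMap.zero_comp]
  · intro z hz
    have h1 : ‖z‖ < 1 := by simpa using hz
    exact ((hle z hz).trans (chi0_norm_le hz)).trans_lt h1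
  · intro s hs
    obtain ⟨n, hn⟩ := ((tendsto_order.1 eta_tendsto).2 (s / 4) (by positivity)).exists
    have hn0 := eta_pos n
    have hn1 := eta_le n
    refine ⟨eta n / 2, om (tt n), by positivity, by linarith, om_differentiableOn _,
      fun z hz => om_re_nonneg (tt_pos n) hz, fun z hz => ?_, fun r hr0 hr => ?_⟩
    · exact (chi0_lower hz n).trans (by linarith [hle z hz])
    · refine (om_avg_le n hr0 hr).trans ?_
      nlinarith

lemma herg_eq (χ : ℂ → (M →L[ℂ] N)) (ε : ℂ → (N →L[ℂ] M)) {z : ℂ}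
    (h : ‖(χ z) ∘L (ε z)‖ < 1) :
    herg χ ε z = (2:ℂ) • UU ((χ z) ∘L (ε z)) - 1 := by
  set G := (χ z) ∘L (ε z) with hG
  have h1 := UU_mul h
  have h2 : (1 + G) * UU G = (2:ℂ) • UU G - (1 - G) * UU G := by
    rw [two_smul, add_mul, sub_mul, one_mul]
    abel
  rw [h1] at h2
  exact h2

theorem mem_Ba [FiniteDimensional ℂ N] {f : M} {e : N} (hf : ‖f‖ = 1) (he : ‖e‖ = 1) :
    chiJ f e ∈ Ba M N := by
  refine ⟨chiJ_schur hf he, fun ε hε => ?_⟩
  have hg := good_of_schur hf he hε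
  obtain ⟨σ, hσ1, hσ2, hσ3⟩ := hg.exists_measure
  have hext : IsExtMeasure (chiJ f e) ε σ := by
    refine ⟨hσ1, fun z hz => ?_⟩
    rw [herg_eq _ _ (hg.lt z hz)]
    exact hσ2 z hz
  have huniq : ∀ τ, IsExtMeasure (chiJ f e) ε τ → τ = σ := by
    intro τ hτ
    apply unique_measure hτ.1 hσ1
    intro z hz
    have h1 := (hτ.2 z hz).symm.trans (hext.2 z hz)
    have h2 : (2 * Real.pi)⁻¹ ≠ 0 := by positivity
    exact smul_right_injective _ h2 h1
  refine ⟨⟨σ, hext, huniq⟩, fun τ hτ A hA h0 => ?_⟩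
  rw [huniq τ hτ]
  exact hσ3 A hA h0

lemma det_rank_one [FiniteDimensional ℂ M] [CompleteSpace M] {f : M} {e : N} (hf : ‖f‖ = 1)
    (he : ‖e‖ = 1) (c : ℂ) :
    LinearMap.det ((1 - (c • JJ f e).adjoint ∘L (c • JJ f e) : M →L[ℂ] M) : M →ₗ[ℂ] M)
      = ((1 - ‖c‖ ^ 2 : ℝ) : ℂ) := by
  have hadj : ∀ w : N, (JJ f e).adjoint w = (inner ℂ e w : ℂ) • f := by
    intro w
    apply ext_inner_left ℂ
    intro v
    rw [ContinuousLinearMap.adjoint_inner_right, JJ_apply, inner_smul_left, inner_smul_right,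
      inner_conj_symm]
    ring
  have hee : (inner ℂ e e : ℂ) = 1 := by
    rw [inner_self_eq_norm_sq_to_K, he]; simp
  have hff : (inner ℂ f f : ℂ) = 1 := by
    rw [inner_self_eq_norm_sq_to_K, hf]; simp
  have key : ((1 - (c • JJ f e).adjoint ∘L (c • JJ f e) : M →L[ℂ] M) : M →ₗ[ℂ] M)
      = LinearMap.transvection ((-(‖c‖ ^ 2 : ℝ) : ℂ) • ((innerSL ℂ f : M →L[ℂ] ℂ) : M →ₗ[ℂ] ℂ))
        f := by
    ext v
    rw [LinearMap.transvection.apply]
    change v - (c • JJ f e).adjoint ((c • JJ f e) v) = v + ((-(‖c‖ ^ 2 : ℝ) : ℂ) •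
      (inner ℂ f v : ℂ)) • f
    have h1 : (c • JJ f e).adjoint = (starRingEnd ℂ c) • (JJ f e).adjoint := by
      rw [map_smulₛₗ]
    have h2 : (c • JJ f e) v = c • (inner ℂ f v : ℂ) • e := rfl
    rw [h1, h2, ContinuousLinearMap.smul_apply, hadj, inner_smul_right, inner_smul_right, hee,
      smul_smul, sub_eq_add_neg, ← neg_smul]
    congr 2
    have h3 : starRingEnd ℂ c * c = ((‖c‖ ^ 2 : ℝ) : ℂ) := by
      rw [mul_comm, Complex.mul_conj, Complex.normSq_eq_norm_sq]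
    rw [smul_eq_mul, ← h3]
    ring
  rw [key, LinearMap.transvection.det]
  simp only [LinearMap.smul_apply, ContinuousLinearMap.coe_coe, smul_eq_mul]
  have h4 : (innerSL ℂ f) f = (1:ℂ) := hff
  rw [h4]
  push_cast
  ring

theorem not_szego [FiniteDimensional ℂ M] [CompleteSpace M] {f : M} {e : N} (hf : ‖f‖ = 1)
    (he : ‖e‖ = 1) : ¬ Szego (chiJ f e) := by
  intro h
  have hb : IsBoundaryValue (chiJ f e) (fun ζ : 𝕋 => chi0 ζ • JJ f e) := by
    filter_upwards [ae_not_exc] with ζ hζ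
    exact (chi0_radial hζ).smul_const _
  obtain ⟨-, h1⟩ := h _ hb
  apply not_integrable_log
  refine h1.congr (Eventually.of_forall (fun ζ => ?_))
  simp only
  rw [det_rank_one hf he, Complex.norm_real, Real.norm_eq_abs]

/-- For all finite-dimensional `N`, `M` with `0 < dim N ≤ dim M` there is `χ ∈ 𝔹_a(M,N)` which
does not satisfy the Szego condition. -/
theorem main (M : Type u) (N : Type v) [NormedAddCommGroup M] [InnerProductSpace ℂ M]
    [FiniteDimensional ℂ M] [CompleteSpace M] [NormedAddCommGroup N] [InnerProductSpace ℂ N]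
    [FiniteDimensional ℂ N] [CompleteSpace N]
    (hN : 0 < Module.finrank ℂ N) (hM : Module.finrank ℂ N ≤ Module.finrank ℂ M) :
    ∃ χ ∈ Ba M N, ¬ Szego χ := by
  have hN' : Nontrivial N := Module.finrank_pos_iff.1 hN
  have hM' : Nontrivial M := Module.finrank_pos_iff.1 (hN.trans_le hM)
  obtain ⟨e, he⟩ := exists_norm_eq N (zero_le_one (α := ℝ))
  obtain ⟨f, hf⟩ := exists_norm_eq M (zero_le_one (α := ℝ))
  exact ⟨chiJ f e, mem_Ba hf he, not_szego hf he⟩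

end Pool.Agent.Work.MP_3b4bb3_an
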