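import Pool.Agent.Work.MP_3b4bb3_an.Hardy

set_option autoImplicit false

open MeasureTheory Filter Topology Complex Metric

namespace Pool.Agent.Work.MP_3b4bb3_an

section oper

variable {N : Type*} [NormedAddCommGroup N] [InnerProductSpace ℂ N] [CompleteSpace N]

/-- the resolvent-type operator `(1 - G)⁻¹` -/
noncomputable def UU (G : N →L[ℂ] N) : N →L[ℂ] N := Ring.inverse (1 - G)

/-- the shifted resolvent -/
noncomputable def KK (a : ℂ) (G : N →L[ℂ] N) : N →L[ℂ] N :=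
  Ring.inverse (1 - G + a • (1 : N →L[ℂ] N))

lemma UU_unit {G : N →L[ℂ] N} (hG : ‖G‖ < 1) : IsUnit (1 - G) :=
  isUnit_one_sub_of_norm_lt_one hG

lemma UU_mul {G : N →L[ℂ] N} (hG : ‖G‖ < 1) : (1 - G) * UU G = 1 :=
  Ring.mul_inverse_cancel _ (UU_unit hG)

lemma mul_UU {G : N →L[ℂ] N} (hG : ‖G‖ < 1) : UU G * (1 - G) = 1 :=
  Ring.inverse_mul_cancel _ (UU_unit hG)

lemma KK_unit {G : N →L[ℂ] N} (hG : ‖G‖ < 1) {a : ℂ} (ha : 0 ≤ a.re) :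
    IsUnit (1 - G + a • (1 : N →L[ℂ] N)) := by
  have h1 : (1:ℝ) ≤ ‖1 + a‖ := by
    have := Complex.re_le_norm (1 + a)
    simp only [add_re, one_re] at this
    linarith
  have h0 : (1 + a) ≠ 0 := by
    intro h
    rw [h, norm_zero] at h1
    linarith
  have h2 : ‖(1 + a)⁻¹ • G‖ < 1 := by
    rw [norm_smul, norm_inv]
    have : ‖1 + a‖⁻¹ ≤ 1 := inv_le_one_of_one_le₀ h1
    calc ‖1 + a‖⁻¹ * ‖G‖ ≤ 1 * ‖G‖ := by gcongr
      _ < 1 := by rw [one_mul]; exact hG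
  have h3 := isUnit_one_sub_of_norm_lt_one h2
  have h4 : 1 - G + a • (1 : N →L[ℂ] N) = (Units.mk0 (1 + a) h0) • (1 - (1 + a)⁻¹ • G) := by
    rw [Units.smul_def, Units.val_mk0, smul_sub, smul_smul, mul_inv_cancel₀ h0, one_smul, add_smul,
      one_smul]
    abel
  rw [h4]
  exact h3.smul _

lemma KK_mul {G : N →L[ℂ] N} (hG : ‖G‖ < 1) {a : ℂ} (ha : 0 ≤ a.re) :
    (1 - G + a • (1 : N →L[ℂ] N)) * KK a G = 1 :=
  Ring.mul_inverse_cancel _ (KK_unit hG ha)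

/-- the resolvent identity -/
lemma UU_sub_KK {G : N →L[ℂ] N} (hG : ‖G‖ < 1) {a : ℂ} (ha : 0 ≤ a.re) :
    UU G - KK a G = a • (UU G * KK a G) := by
  have h1 : UU G = UU G * ((1 - G + a • (1 : N →L[ℂ] N)) * KK a G) := by
    rw [KK_mul hG ha, mul_one]
  have h2 : UU G * ((1 - G + a • (1 : N →L[ℂ] N)) * KK a G)
      = (UU G * (1 - G)) * KK a G + a • (UU G * KK a G) := by
    rw [add_mul, mul_add, ← mul_assoc, smul_mul_assoc, one_mul, mul_smul_comm]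
  rw [mul_UU hG, one_mul] at h2
  rw [h2] at h1
  rw [sub_eq_iff_eq_add]
  rw [add_comm]
  exact h1

lemma bounded_below_inv {A B : N →L[ℂ] N} (hAB : A * B = 1) {c : ℝ} (hc : 0 < c)
    (h : ∀ x, c * ‖x‖ ≤ ‖A x‖) : ‖B‖ ≤ 1 / c := by
  apply ContinuousLinearMap.opNorm_le_bound _ (by positivity)
  intro y
  have h1 : A (B y) = y := by
    have : (A * B) y = y := by rw [hAB]; rfl
    exact this
  have h2 := h (B y)
  rw [h1] at h2
  rw [div_mul_eq_mul_div, one_mul, le_div_iff₀ hc]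
  linarith

lemma UU_norm_le {G : N →L[ℂ] N} (hG : ‖G‖ < 1) {c : ℝ} (hc : 0 < c) (h : c ≤ 1 - ‖G‖) :
    ‖UU G‖ ≤ 1 / c := by
  apply bounded_below_inv (UU_mul hG) hc
  intro x
  have h1 : ‖x‖ - ‖G x‖ ≤ ‖x - G x‖ := norm_sub_norm_le _ _
  have h2 : ‖G x‖ ≤ ‖G‖ * ‖x‖ := G.le_opNorm x
  have h3 : (1 - G) x = x - G x := rfl
  rw [h3]
  have := norm_nonneg x
  nlinarith

lemma KK_norm_le {G : N →L[ℂ] N} (hG : ‖G‖ < 1) {η : ℝ} (hη : 0 < η) {w : ℂ} (hw : 0 ≤ w.re)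
    (h : η * (1 - w.re) ≤ 1 - ‖G‖) : ‖KK (η * w) G‖ ≤ 1 / η := by
  have ha : 0 ≤ ((η : ℂ) * w).re := by
    simp only [mul_re, ofReal_re, ofReal_im, zero_mul, sub_zero]
    positivity
  apply bounded_below_inv (KK_mul hG ha) hη
  intro x
  have h3 : (1 - G + ((η : ℂ) * w) • (1 : N →L[ℂ] N)) x = (1 + (η : ℂ) * w) • x - G x := by
    simp only [ContinuousLinearMap.add_apply, ContinuousLinearMap.sub_apply,
      ContinuousLinearMap.one_apply, ContinuousLinearMap.smul_apply, add_smul, one_smul]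
    abel
  rw [h3]
  have h1 : ‖(1 + (η : ℂ) * w) • x‖ - ‖G x‖ ≤ ‖(1 + (η : ℂ) * w) • x - G x‖ := norm_sub_norm_le _ _
  have h2 : ‖G x‖ ≤ ‖G‖ * ‖x‖ := G.le_opNorm x
  have h4 : 1 + η * w.re ≤ ‖1 + (η : ℂ) * w‖ := by
    have := Complex.re_le_norm (1 + (η : ℂ) * w)
    simpa only [add_re, one_re, mul_re, ofReal_re, ofReal_im, zero_mul, sub_zero] using this
  rw [norm_smul] at h1
  have h5 := norm_nonneg x
  have h6 : (1 + η * w.re) * ‖x‖ ≤ ‖1 + (η : ℂ) * w‖ * ‖x‖ := by gcongr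
  nlinarith

/-- the difference `U - K` -/
noncomputable def DD (a : ℂ) (G : N →L[ℂ] N) : N →L[ℂ] N := UU G - KK a G

lemma DD_norm_le {G : N →L[ℂ] N} (hG : ‖G‖ < 1) {η : ℝ} (hη : 0 < η) {w : ℂ} (hw : 0 ≤ w.re)
    (h : η * (1 - w.re) ≤ 1 - ‖G‖) : ‖DD (η * w) G‖ ≤ ‖UU G‖ * ‖w‖ := by
  have ha : 0 ≤ ((η : ℂ) * w).re := by
    simp only [mul_re, ofReal_re, ofReal_im, zero_mul, sub_zero]
    positivity
  rw [DD, UU_sub_KK hG ha, norm_smul, norm_mul, Complex.norm_real, Real.norm_eq_abs,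
    abs_of_pos hη]
  calc η * ‖w‖ * ‖UU G * KK (η * w) G‖ ≤ η * ‖w‖ * (‖UU G‖ * (1 / η)) := by
        gcongr
        exact (norm_mul_le _ _).trans (by gcongr; exact KK_norm_le hG hη hw h)
    _ = ‖UU G‖ * ‖w‖ := by field_simp

lemma inner_UU_ge {G : N →L[ℂ] N} (hG : ‖G‖ < 1) (x : N) :
    ‖x‖ ^ 2 ≤ 2 * ((inner ℂ x (UU G x))).re := by
  set y := UU G x with hy
  have hx : x = y - G y := by
    have : ((1 - G) * UU G) x = x := by rw [UU_mul hG]; rfl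
    exact this.symm
  have h1 : (inner ℂ x y) = (inner ℂ y y) - (inner ℂ (G y) y) := by rw [hx, inner_sub_left]
  have h2 : ‖x‖ ^ 2 = ‖y‖ ^ 2 - 2 * ((inner ℂ y (G y))).re + ‖G y‖ ^ 2 := by
    rw [hx]
    have := @norm_sub_sq ℂ N _ _ _ y (G y)
    simpa using this
  have h3 : ‖G y‖ ≤ ‖y‖ := by
    calc ‖G y‖ ≤ ‖G‖ * ‖y‖ := G.le_opNorm y
      _ ≤ 1 * ‖y‖ := by gcongr
      _ = ‖y‖ := one_mul _
  have h4 : ((inner ℂ y y)).re = ‖y‖ ^ 2 := by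
    have := @inner_self_eq_norm_sq ℂ N _ _ _ y
    simpa using this
  have h5 : ((inner ℂ (G y) y)).re = ((inner ℂ y (G y))).re := by
    have := @inner_re_symm ℂ N _ _ _ (G y) y
    simpa using this
  have h6 : ‖G y‖ ^ 2 ≤ ‖y‖ ^ 2 := by gcongr
  rw [h1, sub_re, h4, h5, h2]
  linarith

lemma abs_inner_le (A : N →L[ℂ] N) (x : N) : |((inner ℂ x (A x))).re| ≤ ‖A‖ * ‖x‖ ^ 2 := by
  calc |((inner ℂ x (A x))).re| ≤ ‖(inner ℂ x (A x))‖ := Complex.abs_re_le_norm _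
    _ ≤ ‖x‖ * ‖A x‖ := norm_inner_le_norm _ _
    _ ≤ ‖x‖ * (‖A‖ * ‖x‖) := by gcongr; exact A.le_opNorm x
    _ = ‖A‖ * ‖x‖ ^ 2 := by ring

lemma inner_DD_ge {G : N →L[ℂ] N} (hG : ‖G‖ < 1) {η : ℝ} (hη : 0 < η) {w : ℂ} (hw : 0 ≤ w.re)
    (h : η * (1 - w.re) ≤ 1 - ‖G‖) (x : N) :
    - (2 / η * ‖w‖ * ‖x‖ ^ 2) ≤ ((inner ℂ x (DD (η * w) G x))).re := by
  rcases le_or_gt ‖w‖ (1 / 2) with hc | hc
  · have h1 : ‖UU G‖ ≤ 1 / (η / 2) := by
      apply UU_norm_le hG (by positivity)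
      have : w.re ≤ 1 / 2 := (Complex.re_le_norm w).trans hc
      nlinarith
    have h2 : ‖DD (η * w) G‖ ≤ 2 / η * ‖w‖ := by
      refine (DD_norm_le hG hη hw h).trans ?_
      gcongr
      calc ‖UU G‖ ≤ 1 / (η / 2) := h1
        _ = 2 / η := by field_simp
    have h3 := abs_inner_le (DD (η * w) G) x
    have h4 := neg_abs_le ((inner ℂ x (DD (η * w) G x))).re
    have h5 : ‖DD (η * w) G‖ * ‖x‖ ^ 2 ≤ 2 / η * ‖w‖ * ‖x‖ ^ 2 := by gcongr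
    linarith
  · have h1 := inner_UU_ge hG x
    have h2 := abs_inner_le (KK (η * w) G) x
    have h3 := le_abs_self ((inner ℂ x (KK (η * w) G x))).re
    have h4 := KK_norm_le hG hη hw h
    have h5 : ((inner ℂ x (DD (η * w) G x))).re = ((inner ℂ x (UU G x))).re - ((inner ℂ x (KK (η * w) G x))).re := by
      rw [DD, ContinuousLinearMap.sub_apply, inner_sub_right, sub_re]
    have h6 : ‖KK (η * w) G‖ * ‖x‖ ^ 2 ≤ 2 / η * ‖w‖ * ‖x‖ ^ 2 := by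
      gcongr
      refine h4.trans ?_
      rw [div_mul_eq_mul_div]
      gcongr
      linarith
    have h7 : 0 ≤ ‖x‖ ^ 2 := by positivity
    rw [h5]
    linarith

end oper

end Pool.Agent.Work.MP_3b4bb3_an
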