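import Pool.Agent.Work.MP_3b4bb3_an.Density
import Pool.Agent.Work.MP_3b4bb3_an.Defs

set_option autoImplicit false

open MeasureTheory Filter Topology Complex Metric

namespace Pool.Agent.Work.MP_3b4bb3_an

/-- the kernel `(ζ + z)/(ζ - z)` -/
noncomputable def kz (z ζ : ℂ) : ℂ := (ζ + z) / (ζ - z)

lemma sub_ne_of_ball {z ζ : ℂ} (hz : z ∈ ball (0:ℂ) 1) (hζ : ζ ∈ sphere (0:ℂ) 1) : ζ - z ≠ 0 := by
  intro h
  have h1 : ζ = z := sub_eq_zero.1 h
  rw [h1] at hζ
  simp only [mem_sphere_iff_norm, sub_zero] at hζ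
  simp only [mem_ball, dist_zero_right] at hz
  linarith

lemma kz_cont {z : ℂ} (hz : z ∈ ball (0:ℂ) 1) : ContinuousOn (kz z) (sphere 0 1) := by
  unfold kz
  apply ContinuousOn.div (by fun_prop) (by fun_prop)
  intro ζ hζ
  exact sub_ne_of_ball hz hζ

lemma kz_norm_le {z ζ : ℂ} (hz : z ∈ ball (0:ℂ) 1) (hζ : ζ ∈ sphere (0:ℂ) 1) :
    ‖kz z ζ‖ ≤ 2 / (1 - ‖z‖) := by
  have h1 : ‖z‖ < 1 := by simpa using hz
  have h2 : ‖ζ‖ = 1 := by simpa using hζ
  rw [kz, norm_div]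
  have h3 : ‖ζ + z‖ ≤ 2 := by
    refine (norm_add_le _ _).trans ?_
    linarith
  have h4 : 1 - ‖z‖ ≤ ‖ζ - z‖ := by
    have := norm_sub_norm_le ζ z
    rw [h2] at this
    exact this
  have h5 : 0 < 1 - ‖z‖ := by linarith
  gcongr

section avg

variable {E : Type*} [NormedAddCommGroup E] [NormedSpace ℂ E] [CompleteSpace E]

lemma kz_avg {f : ℂ → E} (hf : DiffContOnCl ℂ f (ball 0 1)) {z : ℂ} (hz : z ∈ ball (0:ℂ) 1) :
    Real.circleAverage (fun ζ => kz z ζ • f ζ) 0 1 = (2:ℂ) • f z - f 0 := by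
  have hf' : DiffContOnCl ℂ f (ball 0 |1|) := by rw [abs_one]; exact hf
  have h1 : Real.circleAverage (fun ζ => (ζ / (ζ - z)) • f ζ) 0 1 = f z := by
    have := hf'.circleAverage_smul_div (w := z) (by rw [abs_one]; exact hz)
    simpa using this
  have h2 : Real.circleAverage f 0 1 = f 0 := hf'.circleAverage
  have hfc : ContinuousOn f (sphere 0 1) := by
    apply hf.continuousOn.mono
    rw [closure_ball (0:ℂ) one_ne_zero]
    exact sphere_subset_closedBall
  have hc : ContinuousOn (fun ζ : ℂ => (ζ / (ζ - z)) • f ζ) (sphere 0 1) := by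
    apply ContinuousOn.smul _ hfc
    apply ContinuousOn.div (by fun_prop) (by fun_prop)
    intro ζ hζ
    exact sub_ne_of_ball hz hζ
  have h3 : Real.circleAverage (fun ζ => kz z ζ • f ζ) 0 1 =
      Real.circleAverage (fun ζ => (2:ℂ) • ((ζ / (ζ - z)) • f ζ) - f ζ) 0 1 := by
    apply Real.circleAverage_congr_sphere
    intro ζ hζ
    rw [abs_one] at hζ
    have hne := sub_ne_of_ball hz hζ
    simp only
    rw [smul_smul]
    nth_rewrite 3 [← one_smul ℂ (f ζ)]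
    rw [← sub_smul, kz]
    congr 1
    field_simp
    ring
  have j1 : CircleIntegrable (fun ζ => (2:ℂ) • ((ζ / (ζ - z)) • f ζ)) 0 1 :=
    cInt' (hc.const_smul (2:ℂ))
  rw [h3, Real.circleAverage_fun_sub j1 (cInt' hfc), h2,
    Real.circleAverage_fun_smul, h1]

lemma kz_conj_avg {f : ℂ → E} (hf : DiffContOnCl ℂ f (ball 0 1)) {z : ℂ}
    (hz : z ∈ ball (0:ℂ) 1) :
    Real.circleAverage (fun ζ => (starRingEnd ℂ (kz z ζ)) • f ζ) 0 1 = f 0 := by
  have hz1 : ‖z‖ < 1 := by simpa using hz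
  have hne : ∀ ζ ∈ closedBall (0:ℂ) 1, 1 - starRingEnd ℂ z * ζ ≠ 0 := by
    intro ζ hζ h
    have h1 : starRingEnd ℂ z * ζ = 1 := (sub_eq_zero.1 h).symm
    have h2 : ‖starRingEnd ℂ z * ζ‖ < 1 := by
      have h3 : ‖ζ‖ ≤ 1 := by simpa using hζ
      rw [norm_mul, RCLike.norm_conj]
      calc ‖z‖ * ‖ζ‖ ≤ ‖z‖ * 1 := by gcongr
        _ < 1 := by rw [mul_one]; exact hz1
    rw [h1, norm_one] at h2
    exact lt_irrefl _ h2
  have hk : DiffContOnCl ℂ (fun ζ : ℂ => (1 + starRingEnd ℂ z * ζ) / (1 - starRingEnd ℂ z * ζ))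
      (ball 0 1) := by
    apply DifferentiableOn.diffContOnCl
    rw [closure_ball (0:ℂ) one_ne_zero]
    intro ζ hζ
    apply DifferentiableAt.differentiableWithinAt
    have := hne ζ hζ
    fun_prop (disch := assumption)
  have hkf := hk.smul hf
  have hkf' : DiffContOnCl ℂ (fun ζ : ℂ => ((1 + starRingEnd ℂ z * ζ) /
      (1 - starRingEnd ℂ z * ζ)) • f ζ) (ball 0 |1|) := by
    rw [abs_one]; exact hkf
  have h1 := hkf'.circleAverage
  simp only [mul_zero, add_zero, sub_zero, div_one, one_smul] at h1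
  rw [← h1]
  apply Real.circleAverage_congr_sphere
  intro ζ hζ
  rw [abs_one] at hζ
  simp only
  congr 1
  have hζ1 : ζ * starRingEnd ℂ ζ = 1 := by
    rw [Complex.mul_conj, Complex.normSq_eq_norm_sq]
    have : ‖ζ‖ = 1 := by simpa using hζ
    rw [this]; simp
  have hn1 := hne ζ (sphere_subset_closedBall hζ)
  have hζ0 : ζ ≠ 0 := by
    intro h
    rw [h, zero_mul] at hζ1
    exact zero_ne_one hζ1
  have hn2 : starRingEnd ℂ ζ - starRingEnd ℂ z ≠ 0 := by
    rw [← map_sub]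
    exact (map_ne_zero _).2 (sub_ne_of_ball hz hζ)
  rw [kz, map_div₀, map_add, map_sub, div_eq_div_iff hn2 hn1]
  linear_combination (-(2 * starRingEnd ℂ z)) * hζ1

end avg

section oper

variable {N : Type*} [NormedAddCommGroup N] [InnerProductSpace ℂ N] [CompleteSpace N]

/-- the adjoint as a real-linear map -/
noncomputable def adjL : (N →L[ℂ] N) →L[ℝ] (N →L[ℂ] N) where
  toFun A := A.adjoint
  map_add' A B := map_add _ A B
  map_smul' c A := by
    have : c • A = (c : ℂ) • A := (RCLike.real_smul_eq_coe_smul (K := ℂ) c A)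
    rw [this, map_smulₛₗ]
    simp
  cont := (ContinuousLinearMap.adjoint (𝕜 := ℂ) (E := N) (F := N)).continuous

lemma adjL_apply (A : N →L[ℂ] N) : adjL A = A.adjoint := rfl

variable {g : ℂ → (N →L[ℂ] N)}

lemma UU_zero : UU (0 : N →L[ℂ] N) = 1 := by
  unfold UU
  rw [sub_zero, Ring.inverse_one]

lemma Good.rep_r (h : Good g) {z : ℂ} (hz : z ∈ ball (0:ℂ) 1) {r : ℝ} (hr0 : 0 ≤ r)
    (hr : r < 1) :
    Real.circleAverage (fun ζ => kz z ζ • AA (g ((r:ℂ) * ζ))) 0 1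
      = (2:ℂ) • UU (g ((r:ℂ) * z)) - 1 := by
  set f : ℂ → (N →L[ℂ] N) := fun ζ => UU (g ((r:ℂ) * ζ)) with hf
  have hfd : DiffContOnCl ℂ f (ball 0 1) := by
    apply DifferentiableOn.diffContOnCl
    rw [closure_ball (0:ℂ) one_ne_zero]
    have : DifferentiableOn ℂ (fun ζ : ℂ => (r:ℂ) * ζ) (closedBall 0 1) := by fun_prop
    apply h.U_diff.comp this
    intro ζ hζ
    rw [mem_ball_zero_iff, norm_mul, Complex.norm_real, Real.norm_eq_abs, abs_of_nonneg hr0]
    have h3 : ‖ζ‖ ≤ 1 := by simpa using hζ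
    calc r * ‖ζ‖ ≤ r * 1 := by gcongr
      _ < 1 := by rw [mul_one]; exact hr
  have hf0 : f 0 = 1 := by
    simp only [hf, mul_zero, h.zero, UU_zero]
  have hfc : ContinuousOn f (sphere 0 1) := by
    apply hfd.continuousOn.mono
    rw [closure_ball (0:ℂ) one_ne_zero]
    exact sphere_subset_closedBall
  have hkc := kz_cont hz
  have hkc' : ContinuousOn (fun ζ => starRingEnd ℂ (kz z ζ)) (sphere 0 1) :=
    Complex.continuous_conj.comp_continuousOn hkc
  have a1 := kz_avg hfd hz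
  have a2 := kz_conj_avg hfd hz
  have a3 := kz_avg (f := fun _ : ℂ => (1 : N →L[ℂ] N))
    (diffContOnCl_const) hz
  have i2 : CircleIntegrable (fun ζ => (starRingEnd ℂ (kz z ζ)) • f ζ) 0 1 :=
    cInt' (hkc'.smul hfc)
  have a4 := adjL.circleAverage_comp_comm i2
  rw [a2, adjL_apply, hf0] at a4
  have e1 : (adjL ∘ fun ζ => (starRingEnd ℂ (kz z ζ)) • f ζ) =
      fun ζ => kz z ζ • (f ζ).adjoint := by
    funext ζ
    simp only [Function.comp_apply, adjL_apply, map_smulₛₗ, Complex.conj_conj]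
  rw [e1] at a4
  have hadj : (ContinuousLinearMap.adjoint (1 : N →L[ℂ] N)) = 1 := by
    have := star_one (N →L[ℂ] N)
    rwa [ContinuousLinearMap.star_eq_adjoint] at this
  rw [hadj] at a4
  have hadjc : ContinuousOn (fun ζ => kz z ζ • (f ζ).adjoint) (sphere 0 1) :=
    hkc.smul ((ContinuousLinearMap.adjoint (𝕜 := ℂ) (E := N) (F := N)).continuous.comp_continuousOn
      hfc)
  have e2 : (fun ζ => kz z ζ • AA (g ((r:ℂ) * ζ))) =
      fun ζ => (kz z ζ • f ζ + kz z ζ • (f ζ).adjoint) - kz z ζ • (1 : N →L[ℂ] N) := by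
    funext ζ
    simp only [AA, hf, smul_sub, smul_add]
  have i12 : CircleIntegrable (fun ζ => kz z ζ • f ζ + kz z ζ • (f ζ).adjoint) 0 1 :=
    cInt' ((hkc.smul hfc).add hadjc)
  have i3 : CircleIntegrable (fun ζ => kz z ζ • (1 : N →L[ℂ] N)) 0 1 :=
    cInt' (hkc.smul continuousOn_const)
  have i4 : CircleIntegrable (fun ζ => kz z ζ • f ζ) 0 1 := cInt' (hkc.smul hfc)
  rw [e2, Real.circleAverage_fun_sub i12 i3,
    Real.circleAverage_fun_add i4 (cInt' hadjc), a1, a4, a3, hf0]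
  have : (2:ℂ) • (1 : N →L[ℂ] N) = 1 + 1 := two_smul ℂ 1
  rw [this]
  abel

end oper

end Pool.Agent.Work.MP_3b4bb3_an
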