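import Pool.Agent.Work.MP_3b4bb3_an.Exist

set_option autoImplicit false

open MeasureTheory Filter Topology Complex Metric

namespace Pool.Agent.Work.MP_3b4bb3_an

/-! ### Scalar uniqueness -/

lemma circle_mul_conj (ζ : 𝕋) : (ζ : ℂ) * starRingEnd ℂ (ζ : ℂ) = 1 := by
  rw [Complex.mul_conj, Complex.normSq_eq_norm_sq]
  have : ‖(ζ : ℂ)‖ = 1 := by simp
  rw [this]; simp

lemma kz_hasSum {z : ℂ} (hz : z ∈ ball (0:ℂ) 1) (ζ : 𝕋) :
    HasSum (fun n : ℕ => (2 - if n = 0 then 1 else 0 : ℂ) * (starRingEnd ℂ (ζ : ℂ)) ^ n * z ^ n)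
      (kz z ζ) := by
  have hz1 : ‖z‖ < 1 := by simpa using hz
  have hζ : ‖(ζ : ℂ)‖ = 1 := by simp
  set q : ℂ := starRingEnd ℂ (ζ : ℂ) * z with hq
  have hqn : ‖q‖ < 1 := by rw [hq, norm_mul, RCLike.norm_conj, hζ, one_mul]; exact hz1
  have h1 := (hasSum_geometric_of_norm_lt_one hqn).mul_left 2
  have h2 : HasSum (fun n : ℕ => if n = 0 then (1:ℂ) else 0) 1 := hasSum_ite_eq 0 1
  have h3 := h1.sub h2
  have e1 : (fun n : ℕ => (2 - if n = 0 then 1 else 0 : ℂ) * (starRingEnd ℂ (ζ : ℂ)) ^ n * z ^ n)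
      = fun n => 2 * q ^ n - if n = 0 then (1:ℂ) else 0 := by
    funext n
    by_cases hn : n = 0
    · simp [hn]
    · simp [hn, hq, mul_pow]
      ring
  have e2 : kz z ζ = 2 * (1 - q)⁻¹ - 1 := by
    have hne : (ζ : ℂ) - z ≠ 0 := sub_ne_of_ball hz ζ.2
    have hne2 : 1 - q ≠ 0 := by
      intro h
      have : q = 1 := (sub_eq_zero.1 h).symm
      rw [this, norm_one] at hqn
      exact lt_irrefl _ hqn
    rw [kz]
    field_simp
    rw [hq]
    linear_combination (-(2 * z)) * circle_mul_conj ζ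
  rw [e1, e2]
  exact h3

lemma conj_cont : Continuous (fun ζ : 𝕋 => starRingEnd ℂ (ζ : ℂ)) :=
  Complex.continuous_conj.comp continuous_subtype_val

lemma int_of_cont {m : Measure 𝕋} [IsFiniteMeasure m] {F : Type*} [NormedAddCommGroup F]
    {f : 𝕋 → F} (hf : Continuous f) : Integrable f m :=
  hf.integrable_of_hasCompactSupport (HasCompactSupport.of_compactSpace f)

lemma kz_integral_hasSum (m : Measure 𝕋) [IsFiniteMeasure m] {z : ℂ}
    (hz : z ∈ ball (0:ℂ) 1) :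
    HasSum (fun n : ℕ => (2 - if n = 0 then 1 else 0 : ℂ) *
      (∫ ζ : 𝕋, (starRingEnd ℂ (ζ : ℂ)) ^ n ∂m) * z ^ n) (∫ ζ : 𝕋, kz z ζ ∂m) := by
  have hz1 : ‖z‖ < 1 := by simpa using hz
  have hc : ∀ n : ℕ, Continuous (fun ζ : 𝕋 => (2 - if n = 0 then 1 else 0 : ℂ) *
      (starRingEnd ℂ (ζ : ℂ)) ^ n * z ^ n) := fun n =>
    (continuous_const.mul (conj_cont.pow n)).mul continuous_const
  have hsum : Summable (fun n : ℕ => ∫ ζ : 𝕋, ‖(2 - if n = 0 then 1 else 0 : ℂ) *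
      (starRingEnd ℂ (ζ : ℂ)) ^ n * z ^ n‖ ∂m) := by
    apply Summable.of_nonneg_of_le (fun n => integral_nonneg (fun _ => norm_nonneg _))
      (fun n => ?_) ((summable_geometric_of_lt_one (norm_nonneg z) hz1).mul_left
        (2 * m.real Set.univ))
    have h1 : ∀ ζ : 𝕋, ‖(2 - if n = 0 then 1 else 0 : ℂ) *
      (starRingEnd ℂ (ζ : ℂ)) ^ n * z ^ n‖ ≤ 2 * ‖z‖ ^ n := by
      intro ζ
      have hζ : ‖(ζ : ℂ)‖ = 1 := by simp
      rw [norm_mul, norm_mul, norm_pow, norm_pow, RCLike.norm_conj, hζ, one_pow, mul_one]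
      gcongr
      by_cases hn : n = 0
      · simp only [hn, if_true]; norm_num
      · simp [hn]
    calc ∫ ζ : 𝕋, ‖(2 - if n = 0 then 1 else 0 : ℂ) *
      (starRingEnd ℂ (ζ : ℂ)) ^ n * z ^ n‖ ∂m ≤ ∫ _ζ : 𝕋, 2 * ‖z‖ ^ n ∂m := by
          apply integral_mono (int_of_cont (hc n)).norm (integrable_const _)
          exact h1
      _ = 2 * m.real Set.univ * ‖z‖ ^ n := by
          rw [integral_const, smul_eq_mul]; ring
  have h1 := hasSum_integral_of_summable_integral_norm (fun n => int_of_cont (hc n)) hsum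
  have e1 : ∀ n : ℕ, ∫ ζ : 𝕋, (2 - if n = 0 then 1 else 0 : ℂ) *
      (starRingEnd ℂ (ζ : ℂ)) ^ n * z ^ n ∂m = (2 - if n = 0 then 1 else 0 : ℂ) *
      (∫ ζ : 𝕋, (starRingEnd ℂ (ζ : ℂ)) ^ n ∂m) * z ^ n := by
    intro n
    rw [integral_mul_const, integral_const_mul]
  have e2 : ∀ ζ : 𝕋, ∑' n : ℕ, (2 - if n = 0 then 1 else 0 : ℂ) *
      (starRingEnd ℂ (ζ : ℂ)) ^ n * z ^ n = kz z ζ := fun ζ => (kz_hasSum hz ζ).tsum_eq
  simp_rw [e1, e2] at h1
  exact h1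

lemma moments_eq {m₁ m₂ : Measure 𝕋} [IsFiniteMeasure m₁] [IsFiniteMeasure m₂]
    (h : ∀ z ∈ ball (0:ℂ) 1, ∫ ζ : 𝕋, kz z ζ ∂m₁ = ∫ ζ : 𝕋, kz z ζ ∂m₂) (n : ℕ) :
    ∫ ζ : 𝕋, (starRingEnd ℂ (ζ : ℂ)) ^ n ∂m₁ = ∫ ζ : 𝕋, (starRingEnd ℂ (ζ : ℂ)) ^ n ∂m₂ := by
  set d : ℕ → ℂ := fun n => (2 - if n = 0 then 1 else 0 : ℂ) *
    ((∫ ζ : 𝕋, (starRingEnd ℂ (ζ : ℂ)) ^ n ∂m₁) - ∫ ζ : 𝕋, (starRingEnd ℂ (ζ : ℂ)) ^ n ∂m₂)
    with hd
  have h0 : ∀ z ∈ ball (0:ℂ) 1, HasSum (fun n => d n * z ^ n) 0 := by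
    intro z hz
    have h1 := (kz_integral_hasSum m₁ hz).sub (kz_integral_hasSum m₂ hz)
    rw [h z hz, sub_self] at h1
    have e : (fun n => d n * z ^ n) = fun n : ℕ => (2 - if n = 0 then 1 else 0 : ℂ) *
      (∫ ζ : 𝕋, (starRingEnd ℂ (ζ : ℂ)) ^ n ∂m₁) * z ^ n - (2 - if n = 0 then 1 else 0 : ℂ) *
      (∫ ζ : 𝕋, (starRingEnd ℂ (ζ : ℂ)) ^ n ∂m₂) * z ^ n := by
      funext n
      simp only [hd]
      ring
    rw [e]
    exact h1
  have hhalf : ((1/2 : ℝ) : ℂ) ∈ ball (0:ℂ) 1 := by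
    rw [mem_ball_zero_iff, Complex.norm_real]
    norm_num
  have hs : Summable (fun n => ‖d n * ((1/2 : ℝ) : ℂ) ^ n‖) := (h0 _ hhalf).summable.norm
  have hp := parseval hs (g := fun _ => 0) (fun ζ hζ => by
    have h2 := h0 _ (mul_mem_ball (by norm_num : (0:ℝ) ≤ 1/2) (by norm_num) hζ)
    have e : (fun n => d n * ((1/2 : ℝ) : ℂ) ^ n * ζ ^ n) =
        fun n => d n * (((1/2 : ℝ) : ℂ) * ζ) ^ n := by
      funext n
      rw [mul_pow]; ring
    rw [e]
    exact h2)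
  have e3 : Real.circleAverage (fun _ : ℂ => ‖(0:ℂ)‖ ^ 2) 0 1 = 0 := by
    rw [Real.circleAverage_const]; simp
  rw [e3, hasSum_zero_iff_of_nonneg (fun n => by positivity)] at hp
  have h4 := congrFun hp n
  simp only [Pi.zero_apply] at h4
  have h5 : d n * ((1/2 : ℝ) : ℂ) ^ n = 0 := by
    rw [← norm_eq_zero]
    exact pow_eq_zero_iff (two_ne_zero) |>.1 h4
  have h6 : d n = 0 := by
    rcases mul_eq_zero.1 h5 with h | h
    · exact h
    · exfalso
      have h7 : (((1/2 : ℝ) : ℂ)) ^ n ≠ 0 := pow_ne_zero _ (by norm_num)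
      exact h7 h
  rw [hd] at h6
  simp only at h6
  have h8 : (2 - if n = 0 then 1 else 0 : ℂ) ≠ 0 := by
    by_cases hn : n = 0
    · simp only [hn, if_true]; norm_num
    · simp [hn]
  exact sub_eq_zero.1 ((mul_eq_zero.1 h6).resolve_left h8)

/-- the inclusion of the circle -/
noncomputable def incl : C(𝕋, ℂ) := ⟨fun ζ => (ζ : ℂ), continuous_subtype_val⟩

/-- the inclusion as a unit -/
noncomputable def inclU : (C(𝕋, ℂ))ˣ where
  val := incl
  inv := star incl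
  val_inv := by
    ext ζ
    exact circle_mul_conj ζ
  inv_val := by
    ext ζ
    have := circle_mul_conj ζ
    rw [mul_comm] at this
    exact this

lemma int_cont (m : Measure 𝕋) [IsFiniteMeasure m] :
    Continuous (fun f : C(𝕋, ℂ) => ∫ ζ, f ζ ∂m) := by
  have i1 : ∀ (f : C(𝕋, ℂ)), Integrable f m := fun f => int_of_cont f.continuous
  apply (LipschitzWith.of_dist_le_mul (K := Real.toNNReal (m.real Set.univ)) ?_).continuous
  intro f g
  rw [dist_eq_norm, ← integral_sub (i1 f) (i1 g)]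
  refine (norm_integral_le_of_norm_le_const (C := dist f g)
    (Eventually.of_forall fun ζ => ?_)).trans ?_
  · rw [← dist_eq_norm]; exact ContinuousMap.dist_apply_le_dist ζ
  · rw [Real.coe_toNNReal _ measureReal_nonneg, mul_comm]

lemma measure_eq_of_kz {m₁ m₂ : Measure 𝕋} [IsFiniteMeasure m₁] [IsFiniteMeasure m₂]
    (h : ∀ z ∈ ball (0:ℂ) 1, ∫ ζ : 𝕋, kz z ζ ∂m₁ = ∫ ζ : 𝕋, kz z ζ ∂m₂) : m₁ = m₂ := by
  have hmom := moments_eq h
  have hmom' : ∀ n : ℕ, ∫ ζ : 𝕋, (ζ : ℂ) ^ n ∂m₁ = ∫ ζ : 𝕋, (ζ : ℂ) ^ n ∂m₂ := by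
    intro n
    have h1 := congrArg (starRingEnd ℂ) (hmom n)
    rw [← integral_conj, ← integral_conj] at h1
    simpa using h1
  -- the set of good continuous functions
  have key : ∀ f : C(𝕋, ℂ), ∫ ζ, f ζ ∂m₁ = ∫ ζ, f ζ ∂m₂ := by
    set S : StarSubalgebra ℂ C(𝕋, ℂ) := StarAlgebra.adjoin ℂ {incl} with hS
    have hSsep : S.SeparatesPoints := by
      intro x y hxy
      refine ⟨incl, ⟨incl, StarAlgebra.subset_adjoin ℂ _ (Set.mem_singleton _), rfl⟩, ?_⟩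
      intro h
      exact hxy (Subtype.ext h)
    have hdense := ContinuousMap.starSubalgebra_topologicalClosure_eq_top_of_separatesPoints S hSsep
    have hSgood : ∀ f ∈ S, ∫ ζ, f ζ ∂m₁ = ∫ ζ, f ζ ∂m₂ := by
      intro f hf
      have hf' : f ∈ Subalgebra.toSubmodule S.toSubalgebra := hf
      rw [hS, StarAlgebra.adjoin_eq_span] at hf'
      clear hf
      induction hf' using Submodule.span_induction with
      | mem f hf2 =>
        have hz : ∃ k : ℤ, f = ((inclU ^ k : (C(𝕋, ℂ))ˣ) : C(𝕋, ℂ)) := by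
          refine Submonoid.closure_induction (fun f hf => ?_) ⟨0, ?_⟩ ?_ hf2
          · rcases hf with hf | hf
            · exact ⟨1, by rw [Set.mem_singleton_iff.1 hf]; simp [inclU]⟩
            · refine ⟨-1, ?_⟩
              have h1 : star f = incl := by simpa using hf
              have h2 : f = star incl := by rw [← h1, star_star]
              rw [h2]; simp [inclU]
          · simp
          · rintro - - - - ⟨j, rfl⟩ ⟨k, rfl⟩
            exact ⟨j + k, by rw [zpow_add]; rfl⟩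
        obtain ⟨k, rfl⟩ := hz
        rcases Int.eq_nat_or_neg k with ⟨n, rfl | rfl⟩
        · have e : ∀ ζ : 𝕋, ((inclU ^ ((n : ℤ)) : (C(𝕋, ℂ))ˣ) : C(𝕋, ℂ)) ζ = (ζ : ℂ) ^ n := by
            intro ζ
            rw [zpow_natCast, Units.val_pow_eq_pow_val]
            rfl
          simp_rw [e]
          exact hmom' n
        · have e : ∀ ζ : 𝕋, ((inclU ^ (-(n : ℤ)) : (C(𝕋, ℂ))ˣ) : C(𝕋, ℂ)) ζ
              = (starRingEnd ℂ (ζ : ℂ)) ^ n := by
            intro ζ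
            rw [zpow_neg, zpow_natCast, ← inv_pow, Units.val_pow_eq_pow_val]
            rfl
          simp_rw [e]
          exact hmom n
      | zero => simp
      | add f g _ _ hf hg =>
        have i1 : ∀ (m : Measure 𝕋) [IsFiniteMeasure m] (f : C(𝕋, ℂ)), Integrable f m :=
          fun m _ f => int_of_cont f.continuous
        simp only [ContinuousMap.add_apply]
        rw [integral_add (i1 m₁ f) (i1 m₁ g), integral_add (i1 m₂ f) (i1 m₂ g),
          hf, hg]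
      | smul c f _ hf =>
        simp only [ContinuousMap.smul_apply]
        rw [integral_smul, integral_smul, hf]
    intro f
    have hcl : IsClosed {f : C(𝕋, ℂ) | ∫ ζ, f ζ ∂m₁ = ∫ ζ, f ζ ∂m₂} :=
      isClosed_eq (int_cont m₁) (int_cont m₂)
    have h1 : closure (S : Set C(𝕋, ℂ)) ⊆ {f : C(𝕋, ℂ) | ∫ ζ, f ζ ∂m₁ = ∫ ζ, f ζ ∂m₂} :=
      closure_minimal hSgood hcl
    apply h1
    rw [← StarSubalgebra.topologicalClosure_coe, hdense]
    trivial
  apply ext_of_forall_integral_eq_of_IsFiniteMeasure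
  intro f
  have h1 := key ⟨fun ζ => ((f ζ : ℝ) : ℂ), Complex.continuous_ofReal.comp f.continuous⟩
  simp only [ContinuousMap.coe_mk] at h1
  rw [integral_complex_ofReal, integral_complex_ofReal] at h1
  exact_mod_cast h1

end Pool.Agent.Work.MP_3b4bb3_an
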