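import Pool.Agent.Work.MP_3b4bb3_an.Uniq

set_option autoImplicit false

open MeasureTheory Filter Topology Complex Metric

namespace Pool.Agent.Work.MP_3b4bb3_an

lemma exists_scalar {X : Type*} {mX : MeasurableSpace X} (s : SignedMeasure X)
    (h : ∀ A, MeasurableSet A → 0 ≤ s A) :
    ∃ m : Measure X, IsFiniteMeasure m ∧ ∀ A, MeasurableSet A → m.real A = s A := by
  have h0 : 0 ≤[Set.univ] s := by
    rw [VectorMeasure.le_restrict_univ_iff_le]
    intro A hA
    exact h A hA
  refine ⟨s.toMeasureOfZeroLE Set.univ MeasurableSet.univ h0, inferInstance, fun A hA => ?_⟩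
  rw [SignedMeasure.toMeasureOfZeroLE_real_apply _ _ _ hA, Set.univ_inter]

variable {N : Type*} [NormedAddCommGroup N] [InnerProductSpace ℂ N]

lemma q_of_pos {A : N →L[ℂ] N} (h : A.IsPositive) (x : N) :
    0 ≤ (qL x A).re ∧ qL x A = ((qL x A).re : ℂ) := by
  rw [ContinuousLinearMap.isPositive_iff_complex] at h
  obtain ⟨h1, h2⟩ := h x
  have h3 : qL x A = starRingEnd ℂ (inner ℂ (A x) x : ℂ) := by
    rw [qL_apply, inner_conj_symm]
  have h4 : (qL x A).re = (inner ℂ (A x) x : ℂ).re := by rw [h3, Complex.conj_re]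
  refine ⟨by rw [h4]; exact h2, ?_⟩
  rw [h4, h3, ← h1]
  simp

lemma exists_quad (σ : VectorMeasure 𝕋 (N →L[ℂ] N)) (hσ : ∀ A, (σ A).IsPositive) (x : N) :
    ∃ m : Measure 𝕋, IsFiniteMeasure m ∧
      ∀ A, MeasurableSet A → qL x (σ A) = (m.real A : ℂ) := by
  set L : (N →L[ℂ] N) →+ ℝ := (Complex.reAddGroupHom).comp (qL x).toLinearMap.toAddMonoidHom
    with hL
  have hLc : Continuous L := Complex.continuous_re.comp (qL x).continuous
  have hLa : ∀ A, L A = (qL x A).re := fun A => rfl
  obtain ⟨m, hm, hm'⟩ := exists_scalar (σ.mapRange L hLc) (fun A _ => by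
    rw [VectorMeasure.mapRange_apply, hLa]
    exact (q_of_pos (hσ A) x).1)
  refine ⟨m, hm, fun A hA => ?_⟩
  rw [hm' A hA, VectorMeasure.mapRange_apply, hLa]
  exact (q_of_pos (hσ A) x).2

lemma finite_variation [FiniteDimensional ℂ N] (σ : VectorMeasure 𝕋 (N →L[ℂ] N))
    (hσ : ∀ A, (σ A).IsPositive) : IsFiniteMeasure (VectorMeasure.variation (V := N →L[ℂ] N) σ) := by
  obtain ⟨n, v, hv⟩ := exists_vectors N
  choose m hm hm' using fun i => exists_quad σ hσ (v i)
  have h1 : VectorMeasure.variation (V := N →L[ℂ] N) σ ≤ ∑ i, m i := by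
    apply VectorMeasure.variation_le_of_forall_enorm_le
    intro A hA
    rw [Measure.finsetSum_apply]
    have h2 : ‖σ A‖ ≤ ∑ i, (m i).real A := by
      refine (hv (σ A)).trans (le_of_eq ?_)
      apply Finset.sum_congr rfl
      intro i _
      rw [← qL_apply, hm' i A hA, Complex.norm_real, Real.norm_eq_abs,
        abs_of_nonneg measureReal_nonneg]
    rw [← ofReal_norm]
    refine (ENNReal.ofReal_le_ofReal h2).trans ?_
    rw [ENNReal.ofReal_sum_of_nonneg (fun i _ => measureReal_nonneg)]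
    apply Finset.sum_le_sum
    intro i _
    have := hm i
    rw [ofReal_measureReal]
  have : IsFiniteMeasure (∑ i, m i) := by
    have := hm
    infer_instance
  exact isFiniteMeasure_of_le _ h1

lemma quad_integral [CompleteSpace N] (σ : VectorMeasure 𝕋 (N →L[ℂ] N))
    [IsFiniteMeasure σ.variation] (x : N)
    (m : Measure 𝕋) [IsFiniteMeasure m]
    (hm : ∀ A, MeasurableSet A → qL x (σ A) = (m.real A : ℂ)) {φ : 𝕋 → ℂ}
    (hφ : StronglyMeasurable φ) {C : ℝ} (hC : ∀ ζ, ‖φ ζ‖ ≤ C) :
    qL x (VectorMeasure.integral σ φ (ContinuousLinearMap.lsmul ℝ ℂ)) = ∫ ζ, φ ζ ∂m := by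
  have hS : ∀ s : SimpleFunc 𝕋 ℂ,
      qL x (VectorMeasure.integral σ s (ContinuousLinearMap.lsmul ℝ ℂ)) = ∫ ζ, s ζ ∂m := by
    intro s
    induction s using SimpleFunc.induction with
    | const c hs =>
      rename_i A
      have h1 : (⇑((SimpleFunc.const 𝕋 c).piecewise A hs (SimpleFunc.const 𝕋 0)))
          = A.indicator (fun _ => c) := by
        funext x
        by_cases hx : x ∈ A <;> simp [hx]
      rw [h1, VectorMeasure.integral_indicator_const c hs]
      rw [MeasureTheory.integral_indicator hs, setIntegral_const]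
      have h2 : (ContinuousLinearMap.lsmul ℝ ℂ c) (σ A) = c • σ A := rfl
      rw [h2, map_smul, hm A hs, smul_eq_mul, mul_comm]
      rfl
    | add _ h1 h2 =>
      rename_i f g _
      have e1 : (⇑(f + g) : 𝕋 → ℂ) = fun x => f x + g x := rfl
      rw [e1]
      have if1 : σ.Integrable f := SimpleFunc.integrable_of_isFiniteMeasure f
      have ig1 : σ.Integrable g := SimpleFunc.integrable_of_isFiniteMeasure g
      rw [VectorMeasure.integral_fun_add if1 ig1, map_add, h1, h2,
        ← integral_add (SimpleFunc.integrable_of_isFiniteMeasure f)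
          (SimpleFunc.integrable_of_isFiniteMeasure g)]
  have hC' : ∀ x, ‖φ x‖ ≤ max C 0 := fun x => (hC x).trans (le_max_left _ _)
  set s : ℕ → SimpleFunc 𝕋 ℂ := fun n => hφ.approxBounded (max C 0) n with hs
  have hsn : ∀ n x, ‖s n x‖ ≤ max C 0 := fun n x =>
    hφ.norm_approxBounded_le (le_max_right _ _) n x
  have hst : ∀ x, Tendsto (fun n => s n x) atTop (𝓝 (φ x)) := fun x =>
    hφ.tendsto_approxBounded_of_norm_le (hC' x)
  have t1 : Tendsto (fun n => VectorMeasure.integral σ (s n)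
      (ContinuousLinearMap.lsmul ℝ ℂ)) atTop
      (𝓝 (VectorMeasure.integral σ φ (ContinuousLinearMap.lsmul ℝ ℂ))) := by
    apply VectorMeasure.tendsto_integral_of_dominated_convergence (fun _ => max C 0)
    · intro n
      exact (s n).stronglyMeasurable.aestronglyMeasurable
    · exact integrable_const _
    · intro n
      exact Eventually.of_forall (hsn n)
    · exact Eventually.of_forall hst
  have t2 : Tendsto (fun n => ∫ x, s n x ∂m) atTop (𝓝 (∫ x, φ x ∂m)) := by
    apply tendsto_integral_of_dominated_convergence (fun x => max C 0)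
    · intro n
      exact (s n).stronglyMeasurable.aestronglyMeasurable
    · exact integrable_const _
    · intro n
      exact Eventually.of_forall (hsn n)
    · exact Eventually.of_forall hst
  have t3 := ((qL x).continuous.tendsto _).comp t1
  have t4 : (⇑(qL x) ∘ fun n => VectorMeasure.integral σ (s n)
      (ContinuousLinearMap.lsmul ℝ ℂ)) = fun n => ∫ x, s n x ∂m := by
    funext n
    exact hS (s n)
  rw [t4] at t3
  exact tendsto_nhds_unique t3 t2

/-- Uniqueness of the positive operator measure in the Herglotz representation. -/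
theorem unique_measure [FiniteDimensional ℂ N] [CompleteSpace N]
    {σ τ : VectorMeasure 𝕋 (N →L[ℂ] N)}
    (hσ : ∀ A, (σ A).IsPositive) (hτ : ∀ A, (τ A).IsPositive)
    (h : ∀ z ∈ ball (0 : ℂ) 1,
      VectorMeasure.integral σ (fun ζ : 𝕋 => ((ζ : ℂ) + z) / ((ζ : ℂ) - z))
        (ContinuousLinearMap.lsmul ℝ ℂ) =
      VectorMeasure.integral τ (fun ζ : 𝕋 => ((ζ : ℂ) + z) / ((ζ : ℂ) - z))
        (ContinuousLinearMap.lsmul ℝ ℂ)) : σ = τ := by
  have := finite_variation σ hσ
  have := finite_variation τ hτ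
  ext1 A hA
  have key : ∀ x, qL x (σ A) = qL x (τ A) := by
    intro x
    obtain ⟨m₁, h1, h1'⟩ := exists_quad σ hσ x
    obtain ⟨m₂, h2, h2'⟩ := exists_quad τ hτ x
    have hm : m₁ = m₂ := by
      apply measure_eq_of_kz
      intro z hz
      have hkc' : Continuous (fun ζ : 𝕋 => kz z ζ) :=
        continuousOn_iff_continuous_restrict.1 (kz_cont hz)
      have hkb : ∀ ζ : 𝕋, ‖kz z ζ‖ ≤ 2 / (1 - ‖z‖) := fun ζ => kz_norm_le hz ζ.2
      rw [← quad_integral σ x m₁ h1' hkc'.stronglyMeasurable hkb,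
        ← quad_integral τ x m₂ h2' hkc'.stronglyMeasurable hkb]
      exact congrArg (qL x) (h z hz)
    rw [h1' A hA, h2' A hA, hm]
  have h3 : ∀ x, (inner ℂ ((σ A : N →ₗ[ℂ] N) x) x : ℂ) = inner ℂ ((τ A : N →ₗ[ℂ] N) x) x := by
    intro x
    have h4 := key x
    rw [qL_apply, qL_apply] at h4
    have h5 := congrArg (starRingEnd ℂ) h4
    rw [inner_conj_symm, inner_conj_symm] at h5
    exact h5
  have h6 := (ext_inner_map (σ A : N →ₗ[ℂ] N) (τ A : N →ₗ[ℂ] N)).1 h3
  exact ContinuousLinearMap.coe_injective h6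

end Pool.Agent.Work.MP_3b4bb3_an
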